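import Pool.Agent.helper52.EU.Defs

/-!
# Project eu (MP_ad8ced_nt: almost all primes `p`), Spec I: the bilinear form with an arbitrary weight, conductors `> R₀`

RULES.  File `Pool/Agent/<seat>/EU/XX.lean`:

  import Pool.Agent.helper52.EU.SpecI
  set_option autoImplicit false
  open Finset
  namespace Pool.Agent.EU
  open Pool.Agent.FI Pool.Agent.FJ
  theorem XX (h1 : YY_stmt) ... : XX_stmt := ...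
  end Pool.Agent.EU

Auxiliary lemmas prefixed `XX_` (private where possible).  Never change this file.  If a statement is wrong tell helper52 at once.  No `convert` / `congr!`, no straight double quotes, no sorry.
The rows of project fj (GPT, FFC, VAN, REN, GCL, PSM, CPN, BDN, PAD, CMZ, GSB, LSA, LSB, PHK, LSQ, GPL ...) are PROVED; take them as hypotheses `(hGPT : GPT_stmt)`; most rows below are copies of them: OPEN THE NAMED FILE FIRST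
(`Pool/Agent/*/FJ/XX.lean`; public lemmas may be imported).  `K = K₃ K₄`, `InC`, `cl`, `Pr`, `Mz`, `Eg`, `Gc`, `Fc` as in helper95/FJ/SpecC, SpecD.

WHAT CHANGES.  In project fj the weight `lam` is orthogonal to the small conductors (hypothesis SIh) and absolute values are taken over the pairs `(z, z')`.  Here `lam` is arbitrary (only LamOK), so the small
conductors `≤ R₀` are kept exactly (`SML`), with the signs of `β`.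
-/

set_option autoImplicit false

open Finset

noncomputable section

namespace Pool.Agent.EU

open Pool.Agent.FI Pool.Agent.FJ

/-- **VAR** (short, medium; variation in a cell).  From GPT, FFC.  Copy of VAN (Pool/Agent/helper71/FJ/VAN.lean, which argues with real numbers) for arbitrary integers `l₁, l₂` instead of `lc z w, lc z' w`: `a1 = l₁ (sp - N8 z ρ)/dl`, `a2 = l₁ (N8 z' - sp ρ)/dl`, `ρ = l₂/l₁`. -/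
def VAR_stmt : Prop := ∀ x N A K₁ K₃ K₄ : ℕ, 1 ≤ x → 1 ≤ N → 1 ≤ A → 1 ≤ K₁ → 1 ≤ K₃ → 1 ≤ K₄ → 160 * K₁ * x ^ 2 ≤ K₄ * A ^ 2 →
  ∀ z ∈ ZD N, ∀ z' ∈ ZD N, N * A < K₁ * (x * (dl z z').natAbs) → ∀ b < K₃, ∀ m l₁ l₂ l₁' l₂' : ℤ,
  InC x K₃ K₄ b m l₁ l₂ → InC x K₃ K₄ b m l₁' l₂' →
  K₃ * |a1 z z' l₁ l₂ - a1 z z' l₁' l₂'| ≤ |a1 z z' l₁' l₂'| + A ∧ K₃ * |a2 z z' l₁ l₂ - a2 z z' l₁' l₂'| ≤ |a2 z z' l₁' l₂'| + A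

/-- **RNR** (short, medium).  From GPT, FFC.  (1) `ring` / `field_simp` (`dl * ac z w = sp * lc z w - N8 z * lc z' w`, `dl * ac z' w = N8 z' * lc z w - sp * lc z' w`).
(2) `GdC ⊆ Mz`: as the second part of REN (Pool/Agent/helper40/FJ/REN.lean) with integers `l₁, l₂` of the cell: `|sp - N8 z ρ| = |dl| a₁/l₁ ≤ A |dl|/x`, `|ρ - 2^(m/K)| ≤ 2/K`, `2N · 2/K ≤ A |dl|/(40 x)`.
(3) `N8 z' (a₁² - 8 l₁²) = N8 z (a₂² - 8 l₂²)` (both sides times `dl²`: `ring`, with `sp² - 8 dl² = N8 z N8 z'`), both brackets are negative, so `N8 z`, `N8 z'` have the same sign and `sp² = N8 z N8 z' + 8 dl² ≥ N²`. -/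
def RNR_stmt : Prop := (∀ z z' w : ℤ × ℤ, dl z z' ≠ 0 → a1 z z' (lc z w) (lc z' w) = ac z w ∧ a2 z z' (lc z w) (lc z' w) = ac z' w) ∧
  (∀ x N A K₁ K₃ K₄ : ℕ, 1 ≤ x → 1 ≤ N → 1 ≤ A → A ≤ x → 1 ≤ K₁ → 1 ≤ K₃ → 1 ≤ K₄ → 160 * K₁ * x ^ 2 ≤ K₄ * A ^ 2 →
    ∀ z ∈ ZD N, ∀ z' ∈ ZD N, N * A < K₁ * (x * (dl z z').natAbs) → ∀ b < K₃, GdC x K₃ K₄ A z z' b ⊆ Mz x (K₃ * K₄) A z z') ∧
  ∀ x N A : ℕ, 1 ≤ x → 1 ≤ N → A ≤ x → ∀ z ∈ ZD N, ∀ z' ∈ ZD N, dl z z' ≠ 0 → ∀ l₁ l₂ : ℤ, (x : ℤ) < l₁ → (x : ℤ) < l₂ → Ind A z z' l₁ l₂ ≠ 0 →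
    (N : ℤ) ≤ |sp z z'|

open scoped Classical in
/-- **WPX** (medium; one pair, exact).  From GPT, VAR, RNR, REN, GCL.  Copy of WPN (Pool/Agent/helper22/FJ/WPN.lean).  A cell `(b, m)` is good if all INTEGERS `(l₁, l₂)` of the cell have `a1, a2 ∈ (0, A]` and there is one (`m ∈ GdC b`); then GCL applies (RNR (1)) and the sum over the `w` of the cell is `Eg(e=1) - Eg(e=2)`
(if the cell has no `w` this is still GCL).  A cell which is not good and contains a `w₀` with `ga ga ≠ 0`: there is `(l₁, l₂)` of the cell with some `a_i ∉ (0, A]`; VAR: all `w` of the cell are in `bdN` (real version of WPN_mix). -/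
def WPX_stmt : Prop := ∀ om, OmOK om → ∀ x Z N R A K₁ K₃ K₄ : ℕ, 1 ≤ x → 2 ≤ Z → 1 ≤ N → 1 ≤ R → 1 ≤ A → A ≤ x → 1 ≤ K₁ → 2 ≤ K₃ → 1 ≤ K₄ →
  160 * K₁ * x ^ 2 ≤ K₄ * A ^ 2 → 1156 * x ^ 2 ≤ R ^ 2 * N → ∀ (M : ℝ) (lam : ℤ → ℝ), LamOK x Z M lam → ∀ z ∈ ZD N, ∀ z' ∈ ZD N,
  N * A < K₁ * (x * (dl z z').natAbs) →
  |Tc R A lam z z' - ∑ b ∈ range K₃, ∑ m ∈ GdC x K₃ K₄ A z z' b,
      (Eg x K₃ K₄ lam b m (1 * (dl z z').natAbs) (om 1 z z') - Eg x K₃ K₄ lam b m (2 * (dl z z').natAbs) (om 2 z z'))|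
    ≤ M ^ 2 * #(bdN x R A K₃ z z')

open scoped Classical in
/-- **WBX** (medium; the decomposition, exact).  From PSM, CPN, BDN, WPX, REN, FFC.  Copy of WBN (Pool/Agent/helper31/FJ/WBN.lean), keeping the signs: `WW = ∑_{z,z'} β β' T(z,z')`; the pairs with `K₁ x |dl| ≤ N A` are trivial (PSM), the pairs with `x |dl| > N A` have `T = 0` (REN), the `w` with
`gcd(l₁, dl) > 1`: CPN; on `Pr`: WPX and BDN. -/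
def WBX_stmt : Prop := ∃ C : ℝ, 0 < C ∧ ∀ om, OmOK om → ∀ x Z N R A K₁ K₃ K₄ : ℕ, Siz x N R A → 2 ≤ Z → 1 ≤ K₁ → 2 ≤ K₃ → 1 ≤ K₄ →
  160 * K₁ * x ^ 2 ≤ K₄ * A ^ 2 → ∀ (M Mβ : ℝ) (lam : ℤ → ℝ) (β : ℤ × ℤ → ℝ), LamOK x Z M lam → (∀ z, |β z| ≤ Mβ) →
  |WW N R A β lam - ∑ p ∈ Pr x N A K₁, β p.1 * β p.2 * ∑ b ∈ range K₃, ∑ m ∈ GdC x K₃ K₄ A p.1 p.2 b,
      (Eg x K₃ K₄ lam b m (1 * (dl p.1 p.2).natAbs) (om 1 p.1 p.2) - Eg x K₃ K₄ lam b m (2 * (dl p.1 p.2).natAbs) (om 2 p.1 p.2))|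
    ≤ C * Mβ ^ 2 * (M ^ 2 * (N * A ^ 2 / K₁ + x * A + (1 + Real.log x) * (N * A ^ 2 / Z + x * A * √N + N * √N * A)
      + N * A * (A / K₃ + √N)))

open scoped Classical in
/-- **CHE** (short, medium).  As CHX (Pool/Agent/helper31/FJ/CHX.lean), which proves `Eg = φ(D)⁻¹ ∑_χ conj (χ ω) Gc χ` and then splits; here three parts and no absolute values.  The second claim is the definition. -/
def CHE_stmt : Prop := (∀ (x K₃ K₄ R₀ R₁ : ℕ) (lam : ℤ → ℝ) (b : ℕ) (m : ℤ) (D : ℕ) (ω : ℤ), 1 ≤ D → IsCoprime ω (D : ℤ) → R₀ ≤ R₁ →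
  (Eg x K₃ K₄ lam b m D ω : ℂ) = Ec x K₃ K₄ (fun r => r ≤ R₀) lam b m D ω + Ec x K₃ K₄ (fun r => R₀ < r ∧ r ≤ R₁) lam b m D ω
    + Ec x K₃ K₄ (fun r => R₁ < r) lam b m D ω) ∧
  ∀ (x K₃ K₄ R₁ : ℕ) (lam : ℤ → ℝ) (b : ℕ) (m : ℤ) (D : ℕ) (ω : ℤ), ‖Ec x K₃ K₄ (fun r => R₁ < r) lam b m D ω‖ = EgL x K₃ K₄ R₁ lam b m D ω

open scoped Classical in
/-- **NCH** (short).  `χ ↦ (conductor, primitive character)` is injective (Mathlib `DirichletCharacter.primitiveCharacter`, `changeLevel`), a modulus `r ≥ 1` has `φ(r) ≤ R₀` characters; `∑_{r ≤ R₀} R₀ ≤ R₀²`.  (Compare the proof of LSA, Pool/Agent/helper42/FJ/LSA.lean.) -/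
def NCH_stmt : Prop := ∀ D R₀ : ℕ, 1 ≤ D → #{χ : DirichletCharacter ℂ D | χ.conductor ≤ R₀} ≤ R₀ ^ 2

/-- **SMC** (medium; the cells put together again).  From GPT, VAR, RNR, FFC.  `∑_b ∑_{m ∈ GdC b} Gc χ b m` is the sum of `lam lam conj χ(l₁) χ(l₂)` over the `(l₁, l₂)` in the good cells (`cl x K i` are disjoint and exhaust `(x, 2x]`; WPN_uni, WPN_ex in helper22/FJ/WPN.lean); there `Ind = 1`.  The difference with `LL` is the sum over the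
`(l₁, l₂)` with `Ind = 1` in cells which are not good: by VAR (real version of WPN_mix) `K₃ |a_i| ≤ 4A` or `K₃ |a_i - A| ≤ 4A` for one `i`.  For fixed `l₁` (at most `x` values) `l₂` lies in an interval of length `8A |dl|/(K₃ |N8 z|)` resp. `8A |dl|/(K₃ |sp|)`, `|N8 z| > N`, `|sp| ≥ N` (RNR (3)): at most `8A |dl|/(K₃ N) + 1` values;
four such sets.  Each term is at most `M²`. -/
def SMC_stmt : Prop := ∃ C : ℝ, 0 < C ∧ ∀ x N A K₁ K₃ K₄ : ℕ, 1 ≤ x → 1 ≤ N → 1 ≤ A → A ≤ x → 1 ≤ K₁ → 2 ≤ K₃ → 1 ≤ K₄ → 160 * K₁ * x ^ 2 ≤ K₄ * A ^ 2 →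
  ∀ (M : ℝ) (lam : ℤ → ℝ), (∀ l, |lam l| ≤ M) → ∀ z ∈ ZD N, ∀ z' ∈ ZD N, N * A < K₁ * (x * (dl z z').natAbs) → ∀ (D : ℕ) (χ : DirichletCharacter ℂ D),
  ‖∑ b ∈ range K₃, ∑ m ∈ GdC x K₃ K₄ A z z' b, Gc x K₃ K₄ lam b m χ - LL x A lam z z' χ‖
    ≤ C * M ^ 2 * (x * ((dl z z').natAbs * A / (K₃ * N) + 1))

/-- **SME** (short, medium; the small conductors).  From SMC, NCH, PAD, PHK.  `∑_b ∑_m Ec(≤ R₀) = φ(D)⁻¹ ∑_{χ, cond ≤ R₀} conj (χ ω) ∑_b ∑_m Gc χ b m`, `D = e |dl|`; the difference with `SML` is at most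
`∑_{p ∈ Pr} Mβ² ∑_e φ(e |dl|)⁻¹ R₀² C M² x (|dl| A/(K₃ N) + 1)`; at most `C N` pairs for each value of `|dl| ≤ N A/x` (PAD), `φ(2d) ≥ φ(d)`, `∑ 1/φ(d) ≤ C (1 + log (2NA/x))` (PHK), `d/φ(d) ≤ (N A/x)/φ(d)`. -/
def SME_stmt : Prop := ∃ C : ℝ, 0 < C ∧ ∀ om : ℕ → ℤ × ℤ → ℤ × ℤ → ℤ, ∀ x N A K₁ K₃ K₄ R₀ : ℕ, 1 ≤ x → 1 ≤ N → 1 ≤ A → A ≤ x → 1 ≤ K₁ → 2 ≤ K₃ → 1 ≤ K₄ →
  160 * K₁ * x ^ 2 ≤ K₄ * A ^ 2 → x ≤ N * A → ∀ (M Mβ : ℝ) (lam : ℤ → ℝ) (β : ℤ × ℤ → ℝ), (∀ l, |lam l| ≤ M) → (∀ z, |β z| ≤ Mβ) →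
  ‖∑ p ∈ Pr x N A K₁, (β p.1 : ℂ) * β p.2 * ∑ b ∈ range K₃, ∑ m ∈ GdC x K₃ K₄ A p.1 p.2 b,
      (Ec x K₃ K₄ (fun r => r ≤ R₀) lam b m (1 * (dl p.1 p.2).natAbs) (om 1 p.1 p.2) -
        Ec x K₃ K₄ (fun r => r ≤ R₀) lam b m (2 * (dl p.1 p.2).natAbs) (om 2 p.1 p.2)) - SML x N A K₁ R₀ om β lam‖
    ≤ C * Mβ ^ 2 * M ^ 2 * R₀ ^ 2 * (1 + Real.log (2 * N * A / x : ℕ)) * (N * A ^ 2 / K₃ + x * N)

open scoped Classical in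
/-- **LSN** (short, medium; medium conductors).  From GPT, LSA, LSB, PHK.  The second half of LSM (Pool/Agent/helper42/FJ/LSM.lean): LSA with `c₁ = R₀`, `c₂ = R₁` for each cell, then LSB. -/
def LSN_stmt : Prop := ∃ C : ℝ, 0 < C ∧ ∀ x K D₁ R₀ R₁ : ℕ, 1 ≤ x → 1 ≤ K → K ≤ x → 1 ≤ D₁ → 1 ≤ R₀ → ∀ (M : ℝ) (lam : ℤ → ℝ), (∀ l, |lam l| ≤ M) →
  ∑ D ∈ Icc 1 D₁, 1 / (Nat.totient D : ℝ) * ∑ χ : DirichletCharacter ℂ D with R₀ < χ.conductor ∧ χ.conductor ≤ R₁, ∑ i ∈ range K, ‖Fc x K lam χ i‖ ^ 2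
    ≤ C * (1 + Real.log D₁) * ((x / (K * R₀) + R₁) * (x * M ^ 2))

open scoped Classical in
/-- **GPM** (short, medium; medium conductors, sum over the pairs).  From PAD, CMZ, GSB.  Copy of GPS (Pool/Agent/helper63/FJ/GPS.lean) with the condition `R₀ < cond ≤ R₁`. -/
def GPM_stmt : Prop := ∃ C : ℝ, 0 < C ∧ ∀ om : ℕ → ℤ × ℤ → ℤ × ℤ → ℤ, ∀ x N A K₁ K₃ K₄ R₀ R₁ : ℕ, 1 ≤ x → 1 ≤ N → 1 ≤ K₃ → 1 ≤ K₄ → ∀ lam : ℤ → ℝ,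
  ∑ p ∈ Pr x N A K₁, ∑ b ∈ range K₃, ∑ m ∈ Mz x (K₃ * K₄) A p.1 p.2, ∑ e ∈ ({1, 2} : Finset ℕ),
      ‖Ec x K₃ K₄ (fun r => R₀ < r ∧ r ≤ R₁) lam b m (e * (dl p.1 p.2).natAbs) (om e p.1 p.2)‖
    ≤ C * (1 + (A : ℝ) ^ 2 * (K₃ * K₄) / x ^ 2) * N *
      ∑ D ∈ Icc 1 (2 * N * A / x), 1 / (Nat.totient D : ℝ) * ∑ χ : DirichletCharacter ℂ D with R₀ < χ.conductor ∧ χ.conductor ≤ R₁,
        ∑ i ∈ range (K₃ * K₄), ‖Fc x (K₃ * K₄) lam χ i‖ ^ 2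

/-- **PTD** (medium; the decomposition with all the errors).  From WBX, CHE, RNR, GPM, LSN, GPL, LSQ, SME.  `WBX`, then `Eg` by CHE (`om` is coprime to `e dl`: WFN_cop in Pool/Agent/helper98/FJ/WFN.lean) in three parts; the small conductors are `SML` by SME; the others: `GdC ⊆ Mz` (RNR (2)), `|β β'| ≤ Mβ²`, GPM with LSN (`D₁ = 2NA/x`), GPL with LSQ. -/
def PTD_stmt : Prop := ∃ C : ℝ, 0 < C ∧ ∀ om, OmOK om → ∀ x Z N R A K₁ K₃ K₄ R₀ R₁ : ℕ, Siz x N R A → 2 ≤ Z → 1 ≤ K₁ → 2 ≤ K₃ → 1 ≤ K₄ → 1 ≤ R₀ → R₀ ≤ R₁ →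
  160 * K₁ * x ^ 2 ≤ K₄ * A ^ 2 → K₃ * K₄ ≤ x → x ≤ N * A → ∀ (M Mβ : ℝ) (lam : ℤ → ℝ) (β : ℤ × ℤ → ℝ), LamOK x Z M lam → (∀ z, |β z| ≤ Mβ) →
  ‖(WW N R A β lam : ℂ) - SML x N A K₁ R₀ om β lam‖
    ≤ C * Mβ ^ 2 * (M ^ 2 * (N * A ^ 2 / K₁ + x * A + (1 + Real.log x) * (N * A ^ 2 / Z + x * A * √N + N * √N * A) + N * A * (A / K₃ + √N))
      + M ^ 2 * R₀ ^ 2 * (1 + Real.log (2 * N * A / x : ℕ)) * (N * A ^ 2 / K₃ + x * N)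
      + (1 + (A : ℝ) ^ 2 * (K₃ * K₄) / x ^ 2) * N * ((1 + Real.log (2 * N * A / x : ℕ)) * ((x / ((K₃ * K₄) * R₀) + R₁) * (x * M ^ 2)))
      + √(N * (N * A / x + 1) * (1 + (A : ℝ) ^ 2 * (K₃ * K₄) / x ^ 2)) *
        √(K₃ * (K₃ * (1 + Real.log (2 * N * A / x : ℕ)) * ((x : ℝ) ^ 2 / (K₃ * K₄ * R₁) + (2 * N * A / x : ℕ)) * (M ^ 4 * (x ^ 2 * (1 + Real.log x) ^ 3)))))

/-- **PTI** (medium; the parameters).  From PTD.  As WFN (Pool/Agent/helper98/FJ/WFN.lean: WFN_c, WFN_d, WFN_p1, WFN_p3, WFN_end do the same computations; copy them).  `L = log x`, `M = 2L`, `Mβ = 3L`; `K₃ = ⌈L^(2 E₀ + B + 40)⌉`, `K₄ = ⌈160 K₁ x²/A²⌉`, `K = K₃ K₄ ≤ L^(3E₀+B+50) x²/A² ≤ x^(2/3-η)`,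
`R₁ = ⌈x^(1+η/2)/A⌉`, `1 + A²K/x² ≤ L^(3E₀+B+51)`, `x²/K ≤ A²`, and exactly `(1 + A²K/x²) x²/(K R₀) = x²/(K R₀) + A²/R₀ ≤ 2A²/R₀` (medium conductors: this is why `R₀ ≥ L^(B+30)` is enough, independent of `K₃`).  The hypotheses give `x A, x A √N, N √N A, x N ≤ N A² x^(-η/4)` (`x N ≤ N A² x^(-1/3)`), `Siz`, `x ≤ N A`
(`N ≥ x²/A²`, so `N A ≥ x²/A ≥ x`), `x R₁ ≤ 2 x^(2+η/2)/A ≤ 2 A² x^(-η)`; large conductors: `≤ L^c N A² x^(-η/8)`. -/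
def PTI_stmt : Prop := ∀ η : ℝ, 0 < η → ∀ B E₀ : ℕ, B + 30 ≤ E₀ → ∃ E : ℕ, ∃ x₀ : ℕ, ∀ x : ℕ, x₀ ≤ x → ∀ (Z : ℕ) (lam : ℤ → ℝ), Real.log x ^ E ≤ Z →
  LamOK x Z (2 * Real.log x) lam → ∀ om, OmOK om →
  ∀ A N R K₁ R₀ : ℕ, (x : ℝ) ^ (2 / 3 + η) ≤ A → A ≤ x → (x : ℝ) ^ 2 * (x : ℝ) ^ η ≤ A ^ 2 * N → N * (x : ℝ) ^ η ≤ A ^ 2 →
  1156 * x ^ 2 ≤ R ^ 2 * N → R ^ 2 * N ≤ 2000 * x ^ 2 →
  Real.log x ^ (B + 30) ≤ K₁ → (K₁ : ℝ) ≤ Real.log x ^ E₀ → Real.log x ^ (B + 30) ≤ R₀ → (R₀ : ℝ) ≤ Real.log x ^ E₀ →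
  ∀ β : ℤ × ℤ → ℝ, (∀ z, |β z| ≤ 3 * Real.log x) →
  ‖(WW N R A β lam : ℂ) - SML x N A K₁ R₀ om β lam‖ ≤ N * A ^ 2 / Real.log x ^ B

end Pool.Agent.EU
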