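import Pool.Agent.helper95.FJ.SpecE

/-!
# Project eu (MP_ad8ced_nt: almost all primes `p`), definitions: the bilinear form with an arbitrary weight `lam`

`z, z'` in `ZD N`, `l₁ = lc z w`, `l₂ = lc z' w`; then `ac z w = a1 z z' l₁ l₂` and `ac z' w = a2 z z' l₁ l₂` (real numbers, `dl z z' ≠ 0`).
`SML` is the part of the small conductors `≤ R₀` of the bilinear form, with the cells put together again.
-/

set_option autoImplicit false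

open Finset

noncomputable section

namespace Pool.Agent.EU

open Pool.Agent.FI Pool.Agent.FJ

/-- the coordinate `a` of `z w` as a function of `l₁ = lc z w`, `l₂ = lc z' w` -/
def a1 (z z' : ℤ × ℤ) (l₁ l₂ : ℤ) : ℝ := ((sp z z' : ℝ) * l₁ - N8 z * l₂) / dl z z'

/-- the coordinate `a` of `z' w` -/
def a2 (z z' : ℤ × ℤ) (l₁ l₂ : ℤ) : ℝ := ((N8 z' : ℝ) * l₁ - sp z z' * l₂) / dl z z'

open scoped Classical in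
/-- the indicator of `0 < a₁, a₂ ≤ A` -/
def Ind (A : ℕ) (z z' : ℤ × ℤ) (l₁ l₂ : ℤ) : ℝ :=
  if 0 < a1 z z' l₁ l₂ ∧ a1 z z' l₁ l₂ ≤ A ∧ 0 < a2 z z' l₁ l₂ ∧ a2 z z' l₁ l₂ ≤ A then 1 else 0

/-- the sum over `l₁, l₂` for one pair `(z, z')` and one character -/
def LL (x A : ℕ) (lam : ℤ → ℝ) (z z' : ℤ × ℤ) {D : ℕ} (χ : DirichletCharacter ℂ D) : ℂ :=
  ∑ l₁ ∈ Ioc (x : ℤ) (2 * x), ∑ l₂ ∈ Ioc (x : ℤ) (2 * x),
    (lam l₁ : ℂ) * lam l₂ * Ind A z z' l₁ l₂ * (starRingEnd ℂ) (χ (l₁ : ZMod D)) * χ (l₂ : ZMod D)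

open scoped Classical in
/-- the small conductors, one pair -/
def SMLp (x A R₀ : ℕ) (om : ℕ → ℤ × ℤ → ℤ × ℤ → ℤ) (lam : ℤ → ℝ) (z z' : ℤ × ℤ) : ℂ :=
  ∑ e ∈ ({1, 2} : Finset ℕ), (-1) ^ (e + 1) * (1 / (Nat.totient (e * (dl z z').natAbs) : ℂ) *
    ∑ χ : DirichletCharacter ℂ (e * (dl z z').natAbs) with χ.conductor ≤ R₀,
      (starRingEnd ℂ) (χ (om e z z' : ZMod (e * (dl z z').natAbs))) * LL x A lam z z' χ)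

/-- the small conductors of the bilinear form -/
def SML (x N A K₁ R₀ : ℕ) (om : ℕ → ℤ × ℤ → ℤ × ℤ → ℤ) (β : ℤ × ℤ → ℝ) (lam : ℤ → ℝ) : ℂ :=
  ∑ p ∈ Pr x N A K₁, (β p.1 : ℂ) * β p.2 * SMLp x A R₀ om lam p.1 p.2

open scoped Classical in
/-- the good cells -/
def GdC (x K₃ K₄ A : ℕ) (z z' : ℤ × ℤ) (b : ℕ) : Finset ℤ :=
  {m ∈ Ioo (-((K₃ * K₄ : ℕ) : ℤ)) ((K₃ * K₄ : ℕ) : ℤ) | (∃ l₁ l₂ : ℤ, InC x K₃ K₄ b m l₁ l₂) ∧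
    ∀ l₁ l₂ : ℤ, InC x K₃ K₄ b m l₁ l₂ → 0 < a1 z z' l₁ l₂ ∧ a1 z z' l₁ l₂ ≤ A ∧ 0 < a2 z z' l₁ l₂ ∧ a2 z z' l₁ l₂ ≤ A}

open scoped Classical in
/-- the characters whose conductor satisfies `P` -/
def Ec (x K₃ K₄ : ℕ) (P : ℕ → Prop) (lam : ℤ → ℝ) (b : ℕ) (m : ℤ) (D : ℕ) (ω : ℤ) : ℂ :=
  1 / (Nat.totient D : ℂ) * ∑ χ : DirichletCharacter ℂ D with P χ.conductor, (starRingEnd ℂ) (χ (ω : ZMod D)) * Gc x K₃ K₄ lam b m χ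

end Pool.Agent.EU
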