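import Pool.Agent.helper52.EU.SpecK

/-!
# Row `eu:KBM` (MP_ad8ced_nt): the export of Spec K
-/

set_option autoImplicit false

open Finset

namespace Pool.Agent.EU

open Pool.Agent.FI Pool.Agent.HK Pool.Agent.BP Pool.Agent.YB
open Pool.Agent.CH (nit rgh)

private lemma KBM_nit_norm (t x : ℝ) : ‖nit t x‖ = 1 := by
  unfold nit; exact Complex.norm_exp_ofReal_mul_I _

private lemma KBM_nit_mul (t : ℝ) (a b : ℕ) (ha : a ≠ 0) (hb : b ≠ 0) :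
    nit t ((a * b : ℕ) : ℝ) = nit t a * nit t b := by
  unfold nit
  rw [← Complex.exp_add]
  have : Real.log ((a * b : ℕ) : ℝ) = Real.log a + Real.log b := by
    push_cast
    exact Real.log_mul (by exact_mod_cast ha) (by exact_mod_cast hb)
  rw [this]; congr 1; push_cast; ring

private lemma KBM_nit_one (t : ℝ) : nit t ((1 : ℕ) : ℝ) = 1 := by
  unfold nit; simp

private lemma KBM_nn_mul (z w : ℤ × ℤ) : nn (mul8 z w) = nn z * nn w := by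
  unfold nn; rw [← Int.natAbs_mul]; congr 1; unfold N8 mul8; ring

private lemma KBM_nn_ne (z : ℤ × ℤ) (hz : z.1 % 2 = 1) : nn z ≠ 0 := by
  unfold nn N8
  intro h
  have h1 : z.1 ^ 2 - 8 * z.2 ^ 2 = 0 := Int.natAbs_eq_zero.mp h
  have h2 : z.1 ^ 2 % 2 = 1 := by
    rw [pow_two, Int.mul_emod, hz]; rfl
  omega

private lemma KBM_fd {u : ℕ} {z : ℤ × ℤ} (hz : z ∈ FF u) : Fd z ∧ nn z ≤ u := by
  classical
  unfold FF at hz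
  exact (mem_filter.1 hz).2

private lemma KBM_mem (hSIZ : SIZ_stmt) {u : ℕ} {z : ℤ × ℤ} (h1 : Fd z) (h2 : nn z ≤ u) : z ∈ FF u := by
  classical
  have h3 := (hSIZ z h1).2.2.2.1
  unfold FF at h3 ⊢
  rw [mem_filter, mem_product, mem_Icc, mem_Icc] at h3 ⊢
  have h4 : (nn z : ℤ) ≤ u := by exact_mod_cast h2
  obtain ⟨⟨⟨a1, a2⟩, a3, a4⟩, _⟩ := h3
  refine ⟨⟨⟨?_, ?_⟩, ?_, ?_⟩, h1, h2⟩ <;> linarith

private lemma KBM_sq_sub (a b : ℂ) : ‖a - b‖ ^ 2 ≤ 2 * ‖a‖ ^ 2 + 2 * ‖b‖ ^ 2 := by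
  have h := norm_sub_le a b
  have h0 := norm_nonneg (a - b)
  nlinarith [sq_nonneg (‖a‖ - ‖b‖)]

private lemma KBM_sq_add (a b : ℂ) : ‖a + b‖ ^ 2 ≤ 2 * ‖a‖ ^ 2 + 2 * ‖b‖ ^ 2 := by
  have h := norm_add_le a b
  have h0 := norm_nonneg (a + b)
  nlinarith [sq_nonneg (‖a‖ - ‖b‖)]

private lemma KBM_s1 (z : ℤ × ℤ) : ‖s1 z‖ = 1 := by
  unfold s1; split_ifs <;> simp

private lemma KBM_sign (z : ℤ × ℤ) (i : ℕ) : ‖((N8 z).sign : ℂ) ^ i‖ ≤ 1 := by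
  rw [norm_pow]
  refine pow_le_one₀ (norm_nonneg _) ?_
  rcases Int.lt_trichotomy (N8 z) 0 with h | h | h
  · rw [Int.sign_eq_neg_one_of_neg h]; simp
  · rw [h]; simp
  · rw [Int.sign_eq_one_of_pos h]; simp

/-- the factor without the exponential -/
private noncomputable def KBM_c (ξ : ℤ × ℤ → ℂ) (i₁ i : ℕ) (t : ℝ) (z : ℤ × ℤ) : ℂ :=
  ξ z * s1 z ^ i₁ * ((N8 z).sign : ℂ) ^ i * nit t (nn z)

private lemma KBM_c_norm (q : ℕ) (ξ : ℤ × ℤ → ℂ) (i₁ i : ℕ) (t : ℝ) (hX : IsX q ξ) (z : ℤ × ℤ) :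
    ‖KBM_c ξ i₁ i t z‖ ≤ 1 := by
  have h1 : ‖ξ z‖ ≤ 1 := by
    by_cases h : Nat.Coprime (nn z) q
    · exact (hX.2.2.2.2.2 z h).le
    · rw [hX.2.2.2.2.1 z h]; simp
  unfold KBM_c
  rw [norm_mul, norm_mul, norm_mul, norm_pow, KBM_s1, KBM_nit_norm, one_pow, mul_one, mul_one]
  have h2 := KBM_sign z i
  calc ‖ξ z‖ * ‖((N8 z).sign : ℂ) ^ i‖ ≤ 1 * 1 := mul_le_mul h1 h2 (norm_nonneg _) zero_le_one
    _ = 1 := one_mul 1

private lemma KBM_HX (ξ : ℤ × ℤ → ℂ) (i₁ i : ℕ) (κ t : ℝ) (z : ℤ × ℤ) :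
    HX ξ i₁ i κ z * nit t (nn z) = KBM_c ξ i₁ i t z * Complex.exp (((κ * yy z : ℝ) : ℂ) * Complex.I) := by
  unfold HX KBM_c
  push_cast
  ring

private lemma KBM_fam (hUHX : UHX_stmt) (q : ℕ) (ξ : ℤ × ℤ → ℂ) (i₁ i : ℕ) (α t : ℝ) (hX : IsX q ξ)
    (hI : ∀ m : ℤ, XInv ξ i₁ (fr α m)) :
    FamX α (fun m z => HX ξ i₁ i (fr α m) z * nit t (nn z)) (KBM_c ξ i₁ i t) := by
  refine ⟨fun m => ⟨?_, ?_⟩, KBM_c_norm q ξ i₁ i t hX, ?_⟩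
  · intro z w hz hw
    have h := (hUHX.1 q ξ i₁ i (fr α m) hX (hI m)).1 z w hz hw
    simp only
    rw [h, KBM_nn_mul, KBM_nit_mul t _ _ (KBM_nn_ne z hz) (KBM_nn_ne w hw)]
    ring
  · intro u hu
    have h := (hUHX.1 q ξ i₁ i (fr α m) hX (hI m)).2.1 u hu
    have h2 : nn u = 1 := by unfold nn; rw [hu]; rfl
    simp only
    rw [h, h2, KBM_nit_one, one_mul]
  · intro m z _
    exact KBM_HX ξ i₁ i (fr α m) t z

private lemma KBM_mue_cop (z : ℤ × ℤ) (h : IsCoprime z.1 z.2) : mue z = (ArithmeticFunction.moebius (nn z) : ℝ) := by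
  have h1 : Int.gcd z.1 z.2 = 1 := Int.isCoprime_iff_gcd_eq_one.1 h
  unfold mue
  rw [h1]
  have h2 : ch8 1 = 1 := by unfold ch8; simp
  simp [h2]

private lemma KBM_mob (n : ℕ) : |(ArithmeticFunction.moebius n : ℝ)| ≤ 1 := by
  have h := @ArithmeticFunction.abs_moebius_le_one n
  exact_mod_cast h

private lemma KBM_mue_le (z : ℤ × ℤ) : |mue z| ≤ 1 := by
  unfold mue
  split_ifs
  · rw [abs_mul]
    have h1 := KBM_mob (nn z / Int.gcd z.1 z.2 ^ 2)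
    have h2 : |ch8 (Int.gcd z.1 z.2)| ≤ 1 := by
      unfold ch8; split_ifs <;> simp
    calc _ ≤ (1 : ℝ) * 1 := mul_le_mul h1 h2 (abs_nonneg _) zero_le_one
      _ = 1 := one_mul 1
  · simp

private lemma KBM_rg (Z n : ℕ) (hn : n ≠ 0) : RgN Z n ↔ rgh (Z : ℝ) n := by
  unfold RgN rgh
  constructor
  · intro h; exact ⟨hn, fun p hp hd => by exact_mod_cast h p hp hd⟩
  · intro h p hp hd; exact_mod_cast h.2 p hp hd

open scoped Classical in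
/-- the weights of the imprimitive elements -/
private noncomputable def KBM_b (Z a : ℕ) (ξ : ℤ × ℤ → ℂ) (i₁ i : ℕ) (t : ℝ) (z : ℤ × ℤ) : ℂ :=
  if a < nn z ∧ rgh (Z : ℝ) (nn z) ∧ ¬ IsCoprime z.1 z.2 then (mue z : ℂ) * KBM_c ξ i₁ i t z else 0

private lemma KBM_b_norm (q Z a : ℕ) (ξ : ℤ × ℤ → ℂ) (i₁ i : ℕ) (t : ℝ) (hX : IsX q ξ) (z : ℤ × ℤ) :
    ‖KBM_b Z a ξ i₁ i t z‖ ≤ 1 := by
  unfold KBM_b
  split_ifs
  · rw [norm_mul]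
    have h1 : ‖(mue z : ℂ)‖ ≤ 1 := by
      rw [Complex.norm_real, Real.norm_eq_abs]; exact KBM_mue_le z
    calc _ ≤ (1 : ℝ) * 1 := mul_le_mul h1 (KBM_c_norm q ξ i₁ i t hX z) (norm_nonneg _) zero_le_one
      _ = 1 := one_mul 1
  · simp

private lemma KBM_b_sup (Z a : ℕ) (ξ : ℤ × ℤ → ℂ) (i₁ i : ℕ) (t : ℝ) (z : ℤ × ℤ) (h : KBM_b Z a ξ i₁ i t z ≠ 0) :
    ∃ p : ℕ, p.Prime ∧ Z < p ∧ p ^ 2 ∣ nn z := by
  unfold KBM_b at h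
  split_ifs at h with hc
  · obtain ⟨_, h2, h3⟩ := hc
    have h4 : Int.gcd z.1 z.2 ≠ 1 := fun h5 => h3 (Int.isCoprime_iff_gcd_eq_one.2 h5)
    obtain ⟨p, hp, hpd⟩ := Nat.exists_prime_and_dvd h4
    have h5 : (p : ℤ) ∣ z.1 := (Int.natCast_dvd_natCast.2 hpd).trans (Int.gcd_dvd_left ..)
    have h6 : (p : ℤ) ∣ z.2 := (Int.natCast_dvd_natCast.2 hpd).trans (Int.gcd_dvd_right ..)
    have h7 : ((p ^ 2 : ℕ) : ℤ) ∣ N8 z := by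
      obtain ⟨a, ha⟩ := h5
      obtain ⟨b, hb⟩ := h6
      refine ⟨a ^ 2 - 8 * b ^ 2, ?_⟩
      unfold N8
      rw [ha, hb]; push_cast; ring
    have h8 : p ^ 2 ∣ nn z := by
      unfold nn
      exact Int.natCast_dvd.1 h7
    refine ⟨p, hp, ?_, h8⟩
    have h9 := h2.2 p hp ((dvd_pow_self p two_ne_zero).trans h8)
    exact_mod_cast h9
  · exact absurd rfl h

/-- part 1: the sum over the primitive elements -/
private lemma KBM_id1 (hSIZ : SIZ_stmt) (ξ : ℤ × ℤ → ℂ) (i₁ i : ℕ) (κ t : ℝ) (Z N N' N₁ : ℕ) (hN' : N' ≤ 2 * N) :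
    ∑ z ∈ ZD N with nn z ≤ N', (bMu Z N₁ (nn z) : ℂ) * HX ξ i₁ i κ z * nit t (nn z) =
      Sh (wm Z) (HX ξ i₁ i κ) t (max N N₁) N'
        - ∑ z ∈ FF N', KBM_b Z (max N N₁) ξ i₁ i t z * Complex.exp (((κ * yy z : ℝ) : ℂ) * Complex.I) := by
  classical
  have e1 : (ZD N).filter (fun z => nn z ≤ N') = (FF N').filter (fun z => N < nn z ∧ IsCoprime z.1 z.2) := by
    ext z
    unfold ZD
    simp only [mem_filter]
    constructor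
    · rintro ⟨⟨h1, h2, h3⟩, h4⟩
      exact ⟨KBM_mem hSIZ (KBM_fd h1).1 h4, h2, h3⟩
    · rintro ⟨h1, h2, h3⟩
      exact ⟨⟨KBM_mem hSIZ (KBM_fd h1).1 ((KBM_fd h1).2.trans hN'), h2, h3⟩, (KBM_fd h1).2⟩
  rw [e1, sum_filter]
  unfold Sh
  rw [sum_filter, ← sum_sub_distrib]
  refine sum_congr rfl fun z hz => ?_
  obtain ⟨hFd, hle⟩ := KBM_fd hz
  have hn0 : nn z ≠ 0 := (hSIZ z hFd).2.2.1.ne'
  unfold bMu wm KBM_b
  rw [mul_assoc _ (HX ξ i₁ i κ z) (nit t (nn z)), KBM_HX]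
  simp only [max_lt_iff, KBM_rg Z (nn z) hn0]
  by_cases h1 : N < nn z <;> by_cases h2 : N₁ < nn z <;> by_cases h3 : rgh (Z : ℝ) (nn z) <;>
    by_cases h4 : IsCoprime z.1 z.2 <;> (simp [h1, h2, h3, h4, KBM_mue_cop z]; try ring)

private lemma KBM_zero1 (ξ : ℤ × ℤ → ℂ) (i₁ i : ℕ) (κ t : ℝ) (Z N N' N₁ : ℕ) (h : N' < max N N₁) :
    ∑ z ∈ ZD N with nn z ≤ N', (bMu Z N₁ (nn z) : ℂ) * HX ξ i₁ i κ z * nit t (nn z) = 0 := by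
  classical
  refine sum_eq_zero fun z hz => ?_
  rw [mem_filter] at hz
  obtain ⟨h1, h2⟩ := hz
  unfold ZD at h1
  rw [mem_filter] at h1
  have h3 : ¬ N₁ < nn z := by
    intro h4
    have : max N N₁ < nn z := max_lt h1.2.1 h4
    omega
  unfold bMu
  rw [if_neg (fun hc => h3 hc.1)]
  simp

private lemma KBM_zero2 (Ψ : ℤ × ℤ → ℂ) (Z U V N N' N₁ : ℕ) (h : N' < max N N₁) :
    ∑ z ∈ ZD N with nn z ≤ N', (bCc Z U V N₁ (nn z) : ℂ) * Ψ z = 0 := by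
  classical
  refine sum_eq_zero fun z hz => ?_
  rw [mem_filter] at hz
  obtain ⟨h1, h2⟩ := hz
  unfold ZD at h1
  rw [mem_filter] at h1
  have h3 : ¬ N₁ < nn z := by
    intro h4
    have : max N N₁ < nn z := max_lt h1.2.1 h4
    omega
  unfold bCc
  rw [if_neg (fun hc => h3 hc.1)]
  simp

private lemma KBM_one (z : ℤ × ℤ) (h1 : Fd z) (h2 : nn z = 1) : z = (1, 0) := by
  have h3 : N8 z = 1 ∨ N8 z = -1 := by
    unfold nn at h2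
    exact Int.natAbs_eq_iff.1 h2 |>.imp (fun h => by simpa using h) (fun h => by simpa using h)
  obtain ⟨h4, h5⟩ := h1
  obtain ⟨a, l⟩ := z
  unfold N8 at h3
  simp only at h3 h4 h5 ⊢
  rcases h5 with h5 | h5
  · have h6 : 0 ≤ |l| := abs_nonneg l
    have h7 : |l| ^ 2 = l ^ 2 := sq_abs l
    have h8 : l = 0 := by
      by_contra hl
      have h9 : 1 ≤ |l| := Int.one_le_abs hl
      rcases h3 with h3 | h3 <;> nlinarith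
    subst h8
    have h10 : a = 1 := by
      simp at h5
      rcases h3 with h3 | h3 <;> nlinarith
    rw [h10]
  · exfalso
    have h6 : 0 ≤ |a| := abs_nonneg a
    have h7 : |a| ^ 2 = a ^ 2 := sq_abs a
    have h8 : 0 < l := by linarith
    rcases h3 with h3 | h3 <;> nlinarith

private lemma KBM_id2 (hSIZ : SIZ_stmt) (u₁ u₂ Ψ : ℤ × ℤ → ℂ) (hΨ : MU Ψ) (N N' a : ℕ) (h1 : 1 ≤ N') (hN' : N' ≤ 2 * N) :
    (∑ z₁ ∈ FF (2 * N), ∑ z₂ ∈ FF (2 * N), if a < nn z₁ * nn z₂ ∧ nn z₁ * nn z₂ ≤ N' then u₁ z₁ * u₂ z₂ * (Ψ z₁ * Ψ z₂) else 0) =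
      ∑ z₁ ∈ FF N', ∑ z₂ ∈ FF N', ∑ z₃ ∈ FF N', if a < nn z₁ * nn z₂ * nn z₃ ∧ nn z₁ * nn z₂ * nn z₃ ≤ N' then
        u₁ z₁ * u₂ z₂ * wu z₃ * (Ψ z₁ * Ψ z₂ * Ψ z₃) else 0 := by
  classical
  have hpos : ∀ {u : ℕ} {z : ℤ × ℤ}, z ∈ FF u → 0 < nn z := fun hz => (hSIZ _ (KBM_fd hz).1).2.2.1
  have hsub : FF N' ⊆ FF (2 * N) := fun z hz => KBM_mem hSIZ (KBM_fd hz).1 ((KBM_fd hz).2.trans hN')
  have h10 : ((1 : ℤ), (0 : ℤ)) ∈ FF N' := by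
    refine KBM_mem hSIZ ?_ ?_
    · unfold Fd; simp
    · unfold nn N8; simpa using h1
  have hn10 : nn ((1 : ℤ), (0 : ℤ)) = 1 := by unfold nn N8; simp
  have hΨ1 : Ψ ((1 : ℤ), (0 : ℤ)) = 1 := hΨ.2 _ (by unfold N8; simp)
  have hin : ∀ z₁ z₂ : ℤ × ℤ, (∑ z₃ ∈ FF N', if a < nn z₁ * nn z₂ * nn z₃ ∧ nn z₁ * nn z₂ * nn z₃ ≤ N' then
        u₁ z₁ * u₂ z₂ * wu z₃ * (Ψ z₁ * Ψ z₂ * Ψ z₃) else 0) =
      if a < nn z₁ * nn z₂ ∧ nn z₁ * nn z₂ ≤ N' then u₁ z₁ * u₂ z₂ * (Ψ z₁ * Ψ z₂) else 0 := by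
    intro z₁ z₂
    rw [sum_eq_single ((1 : ℤ), (0 : ℤ))]
    · unfold wu
      rw [hn10, hΨ1]
      simp
    · intro z₃ hz₃ hne
      have h4 : nn z₃ ≠ 1 := fun h5 => hne (KBM_one z₃ (KBM_fd hz₃).1 h5)
      unfold wu
      rw [if_neg h4]
      simp
    · intro h; exact absurd h10 h
  simp_rw [hin]
  symm
  have e1 : ∀ z₁ ∈ FF N', (∑ z₂ ∈ FF N', if a < nn z₁ * nn z₂ ∧ nn z₁ * nn z₂ ≤ N' then u₁ z₁ * u₂ z₂ * (Ψ z₁ * Ψ z₂) else 0) =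
      ∑ z₂ ∈ FF (2 * N), if a < nn z₁ * nn z₂ ∧ nn z₁ * nn z₂ ≤ N' then u₁ z₁ * u₂ z₂ * (Ψ z₁ * Ψ z₂) else 0 := by
    intro z₁ hz₁
    refine sum_subset hsub fun z₂ hz₂ hn => ?_
    rw [if_neg]
    rintro ⟨_, h5⟩
    refine hn (KBM_mem hSIZ (KBM_fd hz₂).1 (le_trans ?_ h5))
    exact Nat.le_mul_of_pos_left _ (hpos hz₁)
  rw [sum_congr rfl e1]
  refine sum_subset hsub fun z₁ hz₁ hn => ?_
  refine sum_eq_zero fun z₂ hz₂ => ?_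
  rw [if_neg]
  rintro ⟨_, h5⟩
  refine hn (KBM_mem hSIZ (KBM_fd hz₁).1 (le_trans ?_ h5))
  exact Nat.le_mul_of_pos_right _ (hpos hz₂)

private lemma KBM_num1 (Cm Ca L Nr M lg Zr V κ : ℝ) (E A s C₁ : ℕ) (hCm : 0 < Cm) (hCa : 0 < Ca) (hL : 1 ≤ L)
    (hN : 0 ≤ Nr) (hM : 0 ≤ M) (hMN : M ≤ 2 * Nr) (hlg : 0 ≤ lg) (hlg2 : 1 + lg ≤ 4 * L) (hκ : 0 ≤ κ)
    (hV : V ^ 2 ≤ κ * L ^ s) (hC₁ : A + 1 + s + E ≤ C₁) (hZ : L ^ C₁ ≤ Zr) :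
    Cm * V ^ 2 * M * (Ca * M * (1 + lg) ^ E / Zr) ≤ 4 * κ * Cm * Ca * 4 ^ E * (Nr ^ 2 / L ^ (A + 1)) := by
  have hL0 : 0 < L := by linarith
  have h1 : (1 + lg) ^ E ≤ 4 ^ E * L ^ E := by
    rw [← mul_pow]; exact pow_le_pow_left₀ (by linarith) hlg2 E
  have h2 : L ^ (A + 1) * L ^ s * L ^ E ≤ Zr := by
    rw [← pow_add, ← pow_add]
    exact (pow_le_pow_right₀ hL hC₁).trans hZ
  have h3 : 0 < L ^ (A + 1) * L ^ s * L ^ E := by positivity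
  have hZr : 0 < Zr := lt_of_lt_of_le h3 h2
  have h4 : M ^ 2 ≤ 4 * Nr ^ 2 := by nlinarith
  calc Cm * V ^ 2 * M * (Ca * M * (1 + lg) ^ E / Zr)
      ≤ Cm * (κ * L ^ s) * M * (Ca * M * (4 ^ E * L ^ E) / (L ^ (A + 1) * L ^ s * L ^ E)) := by gcongr
    _ = κ * Cm * Ca * 4 ^ E * (M ^ 2 / L ^ (A + 1)) := by field_simp
    _ ≤ κ * Cm * Ca * 4 ^ E * (4 * Nr ^ 2 / L ^ (A + 1)) := by gcongr
    _ = 4 * κ * Cm * Ca * 4 ^ E * (Nr ^ 2 / L ^ (A + 1)) := by ring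

private lemma KBM_num2 (C L Nr lg P : ℝ) (E A k : ℕ) (hC : 0 < C) (hL : 1 ≤ L)
    (hN : 0 < Nr) (hlg : 0 ≤ lg) (hlg2 : 1 + lg ≤ 3 * L) (hP1 : L ^ (2 * k) ≤ P) (hP2 : P ≤ 2 * L ^ (2 * k))
    (hk : A + 1 + (6 + E) ≤ k) (hNk : L ^ (2 * k) ≤ Nr) :
    C * (P * (1 + lg)) ^ 6 * (Nr ^ 2 / L ^ (A + 1 + (12 * k + 6))) + C * (3 * L) ^ 6 * (1 + lg) ^ E * Nr * (Nr / √P + √Nr)
      ≤ (C * 6 ^ 6 + 2 * C * 3 ^ (6 + E)) * (Nr ^ 2 / L ^ (A + 1)) := by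
  have hL0 : 0 < L := by linarith
  have hs : ∀ y : ℝ, L ^ (2 * k) ≤ y → L ^ k ≤ √y := by
    intro y hy
    refine Real.le_sqrt_of_sq_le ?_
    rw [← pow_mul, mul_comm k 2]; exact hy
  have h1 := hs P hP1
  have h2 := hs Nr hNk
  have h3 : (1 + lg) ^ E ≤ 3 ^ E * L ^ E := by
    rw [← mul_pow]; exact pow_le_pow_left₀ (by linarith) hlg2 E
  have hLk : 0 < L ^ k := by positivity
  have h4 : Nr / √P ≤ Nr / L ^ k := by gcongr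
  have h5 : √Nr ≤ Nr / L ^ k := by
    rw [le_div_iff₀ hLk]
    calc √Nr * L ^ k ≤ √Nr * √Nr := by gcongr
      _ = Nr := Real.mul_self_sqrt hN.le
  have h6 : L ^ (A + 1) * L ^ (6 + E) ≤ L ^ k := by
    rw [← pow_add]; exact pow_le_pow_right₀ hL hk
  have e1 : C * (P * (1 + lg)) ^ 6 * (Nr ^ 2 / L ^ (A + 1 + (12 * k + 6))) ≤ C * 6 ^ 6 * (Nr ^ 2 / L ^ (A + 1)) := by
    have hP0 : 0 < P := lt_of_lt_of_le (by positivity) hP1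
    have h7 : (P * (1 + lg)) ^ 6 ≤ (2 * L ^ (2 * k) * (3 * L)) ^ 6 := by gcongr
    calc C * (P * (1 + lg)) ^ 6 * (Nr ^ 2 / L ^ (A + 1 + (12 * k + 6)))
        ≤ C * (2 * L ^ (2 * k) * (3 * L)) ^ 6 * (Nr ^ 2 / L ^ (A + 1 + (12 * k + 6))) := by gcongr
      _ = C * 6 ^ 6 * (Nr ^ 2 / L ^ (A + 1)) := by
          have e : (2 * L ^ (2 * k) * (3 * L)) ^ 6 = 6 ^ 6 * L ^ (12 * k + 6) := by
            have : 2 * L ^ (2 * k) * (3 * L) = 6 * L ^ (2 * k + 1) := by rw [pow_succ]; ring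
            rw [this, mul_pow, ← pow_mul]; ring_nf
          rw [e, pow_add L (A + 1) (12 * k + 6)]
          field_simp
  have e2 : C * (3 * L) ^ 6 * (1 + lg) ^ E * Nr * (Nr / √P + √Nr) ≤ 2 * C * 3 ^ (6 + E) * (Nr ^ 2 / L ^ (A + 1)) := by
    calc C * (3 * L) ^ 6 * (1 + lg) ^ E * Nr * (Nr / √P + √Nr)
        ≤ C * (3 * L) ^ 6 * (3 ^ E * L ^ E) * Nr * (Nr / L ^ k + Nr / L ^ k) := by gcongr
      _ = 2 * C * 3 ^ (6 + E) * (L ^ (6 + E) * (Nr ^ 2 / L ^ k)) := by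
          rw [pow_add 3 6 E, pow_add L 6 E]; ring
      _ ≤ 2 * C * 3 ^ (6 + E) * (L ^ (6 + E) * (Nr ^ 2 / (L ^ (A + 1) * L ^ (6 + E)))) := by gcongr
      _ = 2 * C * 3 ^ (6 + E) * (Nr ^ 2 / L ^ (A + 1)) := by field_simp
  linarith

private lemma KBM_large (η : ℝ) (hη : 0 < η) (k : ℕ) (c : ℝ) : ∃ x₀ : ℕ, ∀ x : ℕ, x₀ ≤ x →
    Real.log x ^ k ≤ (x : ℝ) ^ η ∧ c ≤ Real.log x := by
  have h1 : ∀ᶠ y : ℝ in Filter.atTop, Real.log y ^ k ≤ y ^ η := by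
    have h := (isLittleO_log_rpow_rpow_atTop (k : ℝ) hη).def (show (0 : ℝ) < 1 by norm_num)
    filter_upwards [h, Filter.eventually_ge_atTop 1] with y hy hy1
    have h2 : 0 ≤ Real.log y := Real.log_nonneg hy1
    rw [Real.rpow_natCast, one_mul, Real.norm_of_nonneg (pow_nonneg h2 k),
      Real.norm_of_nonneg (Real.rpow_nonneg (by linarith) η)] at hy
    exact hy
  have h2 := h1.and (Real.tendsto_log_atTop.eventually_ge_atTop c)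
  have h3 := (tendsto_natCast_atTop_atTop (R := ℝ)).eventually h2
  obtain ⟨x₀, hx₀⟩ := Filter.eventually_atTop.1 h3
  exact ⟨x₀, fun x hx => hx₀ x hx⟩

private lemma KBM_p1 (hMVQ : MVQ_stmt) (hSQT : SQT_stmt) (c s : ℕ) (κ : ℝ) (hκ : 0 ≤ κ) (A : ℕ) : ∃ (K : ℝ) (C₁ : ℕ), 0 < K ∧ 1 ≤ C₁ ∧
    ∀ (N M M₁ Z : ℕ) (α V L : ℝ) (b : ℤ × ℤ → ℂ), 1 ≤ M₁ → M₁ ^ 2 ≤ N → 1 ≤ N → N ≤ M → M ≤ 2 * N → 0 ≤ α → α ≤ 2 * Real.pi → 0 ≤ V →
      1 ≤ L → 1 + Real.log M ≤ 4 * L → V ^ 2 ≤ κ * L ^ s → L ^ C₁ ≤ (Z : ℝ) →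
      (∀ v, ‖b v‖ ≤ V * (#(nn v).divisors : ℝ) ^ c) → (∀ v, b v ≠ 0 → ∃ p : ℕ, p.Prime ∧ Z < p ∧ p ^ 2 ∣ nn v) →
      ∑ m ∈ Icc (-(M₁ : ℤ)) M₁, ‖∑ v ∈ FF M, b v * Complex.exp (((fr α m * yy v : ℝ) : ℂ) * Complex.I)‖ ^ 2
        ≤ K * ((N : ℝ) ^ 2 / L ^ (A + 1)) := by
  classical
  obtain ⟨Cm, hCm, hM⟩ := hMVQ
  obtain ⟨Ca, E, hCa, hS⟩ := hSQT (2 * c + 2)
  refine ⟨4 * κ * Cm * Ca * 4 ^ E + 1, A + 1 + s + E, by positivity, by omega, ?_⟩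
  intro N M M₁ Z α V L b hM₁ hM₁N hN hNM hMN hα hα' hV hL hlg hVk hZ hb hb'
  have hZ1 : 1 ≤ Z := by
    have h : (1 : ℝ) ≤ Z := (one_le_pow₀ hL).trans hZ
    exact_mod_cast h
  have h1 := hM M M₁ c α V (fun n => ∃ p : ℕ, p.Prime ∧ Z < p ∧ p ^ 2 ∣ n) b hM₁ (hM₁N.trans hNM) hα hα' hV hb hb'
  have h2 := hS M Z (hN.trans hNM) hZ1
  have hM1 : (1 : ℝ) ≤ M := by exact_mod_cast hN.trans hNM
  have h3 : Cm * V ^ 2 * M * ∑ n ∈ Icc 1 M with (∃ p : ℕ, p.Prime ∧ Z < p ∧ p ^ 2 ∣ n), (#n.divisors : ℝ) ^ (2 * c + 2)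
      ≤ Cm * V ^ 2 * M * (Ca * M * (1 + Real.log M) ^ E / Z) := by gcongr
  have h4 := KBM_num1 Cm Ca L N M (Real.log M) Z V κ E A s (A + 1 + s + E) hCm hCa hL (by positivity) (by positivity)
    (by exact_mod_cast hMN) (Real.log_nonneg hM1) hlg hκ hVk le_rfl hZ
  have h5 : 0 ≤ (N : ℝ) ^ 2 / L ^ (A + 1) := by positivity
  calc _ ≤ _ := h1
    _ ≤ _ := h3
    _ ≤ _ := h4
    _ ≤ _ := by nlinarith

open scoped Classical in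
private lemma KBM_wl (Z U : ℕ) (L : ℝ) (hL : 0 ≤ L) (hU : Real.log U ≤ L) (z : ℤ × ℤ) : ‖ct U (wl Z) z‖ ≤ L := by
  unfold ct wl
  split_ifs with h1 h2
  · rw [Complex.norm_real, Real.norm_of_nonneg (Real.log_natCast_nonneg _)]
    have h3 : (0 : ℝ) < nn z := by exact_mod_cast h2.1.pos
    exact (Real.log_le_log h3 (by exact_mod_cast h1)).trans hU
  · simpa using hL
  · simpa using hL

private lemma KBM_wm (Z V : ℕ) (z : ℤ × ℤ) : ‖ct V (wm Z) z‖ ≤ 1 := by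
  unfold ct wm
  split_ifs with h1 h2
  · rw [Complex.norm_real, Real.norm_eq_abs]; exact KBM_mue_le z
  · simp
  · simp

private lemma KBM_wu (z : ℤ × ℤ) : ‖wu z‖ ≤ 1 := by
  unfold wu; split_ifs <;> simp

theorem KBM (hKRG : KRG_stmt) (hKCC : KCC_stmt) (hKCB : KCB_stmt) (hCSP : CSP_stmt) (hMVQ : MVQ_stmt) (hSQT : SQT_stmt)
    (hUHX : UHX_stmt) (hSIZ : SIZ_stmt) : KBM_stmt := by
  classical
  intro η δ hη hη1 hδ A B
  obtain ⟨K₁, C₁, hK₁, hC₁, hp1⟩ := KBM_p1 hMVQ hSQT 0 0 1 zero_le_one A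
  obtain ⟨K₂, C₂, hK₂, hC₂, hp2⟩ := KBM_p1 hMVQ hSQT 3 2 36 (by norm_num) A
  obtain ⟨Cs, E, hCs, hcsp⟩ := hCSP
  obtain ⟨k, hk⟩ : ∃ k, k = A + 1 + (6 + E) := ⟨_, rfl⟩
  refine ⟨max C₁ C₂, fun C₀ hC₀ => ?_⟩
  have hC₀1 : 1 ≤ C₀ := (hC₁.trans (le_max_left _ _)).trans hC₀
  obtain ⟨x₁, hx₁⟩ := hKRG η hη hη1 (A + 1) B C₀ hC₀1
  obtain ⟨x₂, hx₂⟩ := hKCB η δ hη hη1 hδ (A + 1 + (12 * k + 6)) B C₀ hC₀1
  obtain ⟨K₃, hK₃⟩ : ∃ K₃, K₃ = Cs * 6 ^ 6 + 2 * Cs * 3 ^ (6 + E) := ⟨_, rfl⟩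
  obtain ⟨x₃, hx₃⟩ := KBM_large η hη (2 * k) (8 + 2 * (1 + K₁) + 2 * (K₂ + K₃))
  refine ⟨max (max x₁ x₂) (max x₃ 3), ?_⟩
  intro x hx N M₁ Z N₁ hM₁ hMN hNx hZ hZ'
  have hxx₁ : x₁ ≤ x := ((le_max_left _ _).trans (le_max_left _ _)).trans hx
  have hxx₂ : x₂ ≤ x := ((le_max_right _ _).trans (le_max_left _ _)).trans hx
  have hxx₃ : x₃ ≤ x := ((le_max_left _ _).trans (le_max_right _ _)).trans hx
  obtain ⟨hLk, hLc⟩ := hx₃ x hxx₃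
  have hx3 : 3 ≤ x := ((le_max_right _ _).trans (le_max_right _ _)).trans hx
  have hx1 : (1 : ℝ) ≤ x := by exact_mod_cast (by omega : 1 ≤ x)
  obtain ⟨L, hLdef⟩ : ∃ L, L = Real.log x := ⟨_, rfl⟩
  rw [← hLdef] at hLk hLc hZ hZ'
  have hK₃0 : 0 < K₃ := by rw [hK₃]; positivity
  have hL8 : 8 ≤ L := by linarith
  have hL1 : 1 ≤ L := by linarith
  have hxη : (1 : ℝ) ≤ (x : ℝ) ^ η := Real.one_le_rpow hx1 hη.le
  have hM₁1 : (1 : ℝ) ≤ M₁ := by exact_mod_cast hM₁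
  have hxN : (x : ℝ) ^ η ≤ N := by
    calc (x : ℝ) ^ η = 1 * (x : ℝ) ^ η := (one_mul _).symm
      _ ≤ (M₁ : ℝ) ^ 2 * (x : ℝ) ^ η := by gcongr; exact one_le_pow₀ hM₁1
      _ ≤ N := hMN
  have hN1r : (1 : ℝ) ≤ N := hxη.trans hxN
  have hN1 : 1 ≤ N := by exact_mod_cast hN1r
  have hM₁N : M₁ ^ 2 ≤ N := by
    have : (M₁ : ℝ) ^ 2 ≤ N := by
      calc (M₁ : ℝ) ^ 2 = (M₁ : ℝ) ^ 2 * 1 := (mul_one _).symm
        _ ≤ (M₁ : ℝ) ^ 2 * (x : ℝ) ^ η := by gcongr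
        _ ≤ N := hMN
    exact_mod_cast this
  have hlogN : Real.log N ≤ 2 * L := by
    rw [hLdef]
    calc Real.log N ≤ Real.log ((x : ℝ) ^ 2) := Real.log_le_log (by linarith) (by exact_mod_cast hNx)
      _ = 2 * Real.log x := by rw [Real.log_pow]; norm_num
  have hlog2N : ∀ M : ℕ, 1 ≤ M → M ≤ 2 * N → Real.log M ≤ 3 * L := by
    intro M hM hM2
    calc Real.log M ≤ Real.log (2 * N) := Real.log_le_log (by exact_mod_cast hM) (by exact_mod_cast hM2)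
      _ = Real.log 2 + Real.log N := Real.log_mul (by norm_num) (by linarith)
      _ ≤ 1 + 2 * L := by linarith [Real.log_two_lt_d9]
      _ ≤ 3 * L := by linarith
  have hZ₁ : L ^ C₁ ≤ (Z : ℝ) := (pow_le_pow_right₀ hL1 (le_max_left _ _)).trans hZ
  have hZ₂ : L ^ C₂ ≤ (Z : ℝ) := (pow_le_pow_right₀ hL1 (le_max_right _ _)).trans hZ
  have hZ8 : (8 : ℝ) ≤ Z := by
    calc (8 : ℝ) ≤ L := hL8
      _ = L ^ 1 := (pow_one L).symm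
      _ ≤ L ^ C₁ := pow_le_pow_right₀ hL1 hC₁
      _ ≤ Z := hZ₁
  obtain ⟨R, hR⟩ : ∃ R, R = (N : ℝ) ^ 2 / L ^ (A + 1) := ⟨_, rfl⟩
  have hR0 : 0 ≤ R := by rw [hR]; positivity
  have hRL : (2 * (1 + K₁) + 2 * (K₂ + K₃)) * R ≤ (N : ℝ) ^ 2 / L ^ A := by
    have : (N : ℝ) ^ 2 / L ^ A = L * R := by rw [hR, pow_succ L A]; field_simp
    rw [this]
    exact mul_le_mul_of_nonneg_right (by linarith) hR0
  have hR2 : 2 * (1 + K₁) * R ≤ (N : ℝ) ^ 2 / L ^ A := by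
    refine le_trans ?_ hRL
    exact mul_le_mul_of_nonneg_right (by linarith) hR0
  have hR3 : 2 * (K₂ + K₃) * R ≤ (N : ℝ) ^ 2 / L ^ A := by
    refine le_trans ?_ hRL
    exact mul_le_mul_of_nonneg_right (by linarith) hR0
  have hT0 : 0 ≤ (N : ℝ) ^ 2 / L ^ A := by positivity
  refine ⟨?_, ?_⟩
  · -- the Moebius function
    intro q ξ hX hq i₁ i hi₁ hi α t hα hα' hI ht N' hNN' hN'
    rw [← hLdef]
    by_cases ha : N' < max N N₁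
    · rw [sum_eq_zero fun m _ => by rw [KBM_zero1 ξ i₁ i (fr α m) t Z N N' N₁ ha]; simp]
      exact hT0
    · have ha' : max N N₁ ≤ N' := not_lt.1 ha
      have hD : Dta x q B ξ i₁ i α := ⟨hX, hq, hi₁, hi, hα, hα', hI⟩
      have h1 := hx₁ x hxx₁ q ξ i₁ i α t Z N (max N N₁) N' M₁ hD hZ8 (by rw [← hLdef]; exact hZ') hM₁ hMN hNx (le_max_left _ _) ha' hN' ht
      rw [← hLdef, ← hR] at h1
      have h2 := hp1 N N' M₁ Z α 1 L (KBM_b Z (max N N₁) ξ i₁ i t) hM₁ hM₁N hN1 hNN' hN' hα hα'.le zero_le_one hL1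
        (by linarith [hlog2N N' (hN1.trans hNN') hN']) (by norm_num) hZ₁
        (fun v => by rw [pow_zero, mul_one]; exact KBM_b_norm q Z _ ξ i₁ i t hX v) (fun v hv => KBM_b_sup Z _ ξ i₁ i t v hv)
      rw [← hR] at h2
      calc ∑ m ∈ Icc (-(M₁ : ℤ)) M₁, ‖∑ z ∈ ZD N with nn z ≤ N', (bMu Z N₁ (nn z) : ℂ) * HX ξ i₁ i (fr α m) z * nit t (nn z)‖ ^ 2
          ≤ ∑ m ∈ Icc (-(M₁ : ℤ)) M₁, (2 * ‖Sh (wm Z) (HX ξ i₁ i (fr α m)) t (max N N₁) N'‖ ^ 2 +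
            2 * ‖∑ v ∈ FF N', KBM_b Z (max N N₁) ξ i₁ i t v * Complex.exp (((fr α m * yy v : ℝ) : ℂ) * Complex.I)‖ ^ 2) := by
              refine sum_le_sum fun m _ => ?_
              rw [KBM_id1 hSIZ ξ i₁ i (fr α m) t Z N N' N₁ hN']
              exact KBM_sq_sub _ _
        _ ≤ 2 * R + 2 * (K₁ * R) := by
              rw [sum_add_distrib, ← mul_sum, ← mul_sum]
              gcongr
        _ = 2 * (1 + K₁) * R := by ring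
        _ ≤ _ := hR2
  · -- the short coefficient
    intro U V hU hV q ξ hX hq i₁ i hi₁ hi α t hα hα' hI ht N' hNN' hN'
    rw [← hLdef]
    by_cases ha : N' < max N N₁
    · rw [sum_eq_zero fun m _ => by
        have := KBM_zero2 (fun z => HX ξ i₁ i (fr α m) z * nit t (nn z)) Z U V N N' N₁ ha
        simp_rw [mul_assoc]
        rw [this]; simp]
      exact hT0
    · have ha' : max N N₁ ≤ N' := not_lt.1 ha
      have hD : Dta x q B ξ i₁ i α := ⟨hX, hq, hi₁, hi, hα, hα', hI⟩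
      have hF := KBM_fam hUHX q ξ i₁ i α t hX hI
      obtain ⟨b, hb1, hb2, hb3⟩ := hKCC Z U V N₁ N N' hN1 hNN' hN'
      have hlog2 : Real.log (2 * N) ≤ 3 * L := by
        have h := hlog2N (2 * N) (by omega) le_rfl
        push_cast at h
        exact h
      have hlog20 : 0 ≤ Real.log (2 * N) := Real.log_nonneg (by linarith)
      -- the error
      have h2 := hp2 N (2 * N) M₁ Z α (2 * Real.log (2 * N)) L (fun v => b v * KBM_c ξ i₁ i t v) hM₁ hM₁N hN1 (by omega) le_rfl hα hα'.le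
        (by positivity) hL1 (by push_cast; linarith) (by nlinarith) hZ₂
        (fun v => by
          rw [norm_mul]
          calc ‖b v‖ * ‖KBM_c ξ i₁ i t v‖ ≤ ‖b v‖ * 1 := mul_le_mul_of_nonneg_left (KBM_c_norm q ξ i₁ i t hX v) (norm_nonneg _)
            _ ≤ _ := by rw [mul_one]; exact hb1 v)
        (fun v hv => hb2 v (fun h0 => hv (by rw [h0, zero_mul])))
      rw [← hR] at h2
      -- the main term
      obtain ⟨P, hP⟩ : ∃ P : ℕ, P = ⌈L ^ (2 * k)⌉₊ := ⟨_, rfl⟩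
      have hL2k : 1 ≤ L ^ (2 * k) := one_le_pow₀ hL1
      have hP1 : L ^ (2 * k) ≤ P := by rw [hP]; exact Nat.le_ceil _
      have hP2 : (P : ℝ) ≤ 2 * L ^ (2 * k) := by
        rw [hP]
        have := (Nat.ceil_lt_add_one (show 0 ≤ L ^ (2 * k) by positivity)).le
        linarith
      have hP2' : 2 ≤ P := by
        have : (2 : ℝ) ≤ P := by
          calc (2 : ℝ) ≤ L := by linarith
            _ = L ^ 1 := (pow_one L).symm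
            _ ≤ L ^ (2 * k) := pow_le_pow_right₀ hL1 (by omega)
            _ ≤ P := hP1
        exact_mod_cast this
      have hUN : Real.log U ≤ 3 * L := by
        rcases Nat.eq_zero_or_pos U with h0 | h0
        · rw [h0]; simp; linarith
        · have h : (U : ℝ) ≤ N := by
            have hxδ : (1 : ℝ) ≤ (x : ℝ) ^ δ := Real.one_le_rpow hx1 hδ.le
            calc (U : ℝ) = U * 1 := (mul_one _).symm
              _ ≤ U * (x : ℝ) ^ δ := by gcongr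
              _ ≤ N := hU
          calc Real.log U ≤ Real.log N := Real.log_le_log (by exact_mod_cast h0) h
            _ ≤ 3 * L := by linarith
      have hW : 0 ≤ (N : ℝ) ^ 2 / L ^ (A + 1 + (12 * k + 6)) := by positivity
      have h1 := hcsp α (fun m z => HX ξ i₁ i (fr α m) z * nit t (nn z)) (KBM_c ξ i₁ i t) hF hα hα'.le
        N (max N N₁) N' M₁ P (3 * L) ((N : ℝ) ^ 2 / L ^ (A + 1 + (12 * k + 6))) (ct U (wl Z)) (ct V (wm Z)) wu (Icc (-(M₁ : ℤ)) M₁) (Subset.refl _) hM₁ hM₁N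
        (le_max_left _ _) ha' hN' hP2' (by linarith) hW
        (KBM_wl Z U (3 * L) (by linarith) hUN) (fun z => (KBM_wm Z V z).trans (by linarith)) (fun z => (KBM_wu z).trans (by linarith))
        (fun a₁ b₁ a₂ b₂ a₃ b₃ hc₁ hc₂ hc₃ hN8 hN2 => by
          have h := hx₂ x hxx₂ q ξ i₁ i α t Z N M₁ U V hD hZ8 (by rw [← hLdef]; exact hZ') hM₁ hMN hNx hU hV ht a₁ b₁ a₂ b₂ a₃ b₃ hc₁ hc₂ hc₃ hN8 hN2
          rw [← hLdef] at h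
          exact h)
      have hnum := KBM_num2 Cs L N (Real.log N) P E A k hCs hL1 (by linarith) (Real.log_nonneg hN1r) (by linarith) hP1 hP2 hk.ge (hLk.trans hxN)
      rw [← hR, ← hK₃] at hnum
      have h3 := h1.trans hnum
      calc ∑ m ∈ Icc (-(M₁ : ℤ)) M₁, ‖∑ z ∈ ZD N with nn z ≤ N', (bCc Z U V N₁ (nn z) : ℂ) * HX ξ i₁ i (fr α m) z * nit t (nn z)‖ ^ 2
          ≤ ∑ m ∈ Icc (-(M₁ : ℤ)) M₁, (2 * ‖∑ z₁ ∈ FF N', ∑ z₂ ∈ FF N', ∑ z₃ ∈ FF N', if max N N₁ < nn z₁ * nn z₂ * nn z₃ ∧ nn z₁ * nn z₂ * nn z₃ ≤ N' then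
              ct U (wl Z) z₁ * ct V (wm Z) z₂ * wu z₃ * ((HX ξ i₁ i (fr α m) z₁ * nit t (nn z₁)) * (HX ξ i₁ i (fr α m) z₂ * nit t (nn z₂)) * (HX ξ i₁ i (fr α m) z₃ * nit t (nn z₃))) else 0‖ ^ 2 +
            2 * ‖∑ v ∈ FF (2 * N), (b v * KBM_c ξ i₁ i t v) * Complex.exp (((fr α m * yy v : ℝ) : ℂ) * Complex.I)‖ ^ 2) := by
              refine sum_le_sum fun m _ => ?_
              have e1 := hb3 (fun z => HX ξ i₁ i (fr α m) z * nit t (nn z)) (hF.1 m)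
              rw [KBM_id2 hSIZ (ct U (wl Z)) (ct V (wm Z)) (fun z => HX ξ i₁ i (fr α m) z * nit t (nn z)) (hF.1 m) N N' (max N N₁) (hN1.trans hNN') hN'] at e1
              have e2 : ∑ v ∈ FF (2 * N), b v * (HX ξ i₁ i (fr α m) v * nit t (nn v)) =
                  ∑ v ∈ FF (2 * N), (b v * KBM_c ξ i₁ i t v) * Complex.exp (((fr α m * yy v : ℝ) : ℂ) * Complex.I) := by
                refine sum_congr rfl fun v _ => ?_
                rw [KBM_HX, mul_assoc]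
              rw [e2] at e1
              have e3 : ∑ z ∈ ZD N with nn z ≤ N', (bCc Z U V N₁ (nn z) : ℂ) * HX ξ i₁ i (fr α m) z * nit t (nn z) =
                  ∑ z ∈ ZD N with nn z ≤ N', (bCc Z U V N₁ (nn z) : ℂ) * (HX ξ i₁ i (fr α m) z * nit t (nn z)) :=
                sum_congr rfl fun z _ => mul_assoc _ _ _
              rw [e3, e1]
              exact KBM_sq_add _ _
        _ ≤ 2 * (K₃ * R) + 2 * (K₂ * R) := by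
              rw [sum_add_distrib, ← mul_sum, ← mul_sum]
              gcongr
        _ = 2 * (K₂ + K₃) * R := by ring
        _ ≤ _ := hR3

end Pool.Agent.EU
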