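import Pool.Agent.helper52.EU.SpecY

/-!
# Row `eu:SMT` (MP_ad8ced_nt): large smooth divisors
-/

set_option autoImplicit false

open Finset

namespace Pool.Agent.EU

open Pool.Agent.FI Pool.Agent.HK Pool.Agent.BP Pool.Agent.YB

open Pool.Agent.helper85.BVP (tau)

private noncomputable def SMT_f (c : ℕ) (θ : ℝ) (n : ℕ) : ℝ := tau n ^ c * (n : ℝ) ^ (θ - 1)

private lemma SMT_tau_pp {p : ℕ} (hp : p.Prime) (j : ℕ) : tau (p ^ j) = j + 1 := by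
  unfold tau
  rw [Nat.divisors_prime_pow hp, card_map, card_range]
  push_cast; ring

private lemma SMT_f_pp (c : ℕ) (θ : ℝ) {p : ℕ} (hp : p.Prime) (j : ℕ) :
    SMT_f c θ (p ^ j) = ((j : ℝ) + 1) ^ c * ((p : ℝ) ^ (θ - 1)) ^ j := by
  have h : ((p : ℝ) ^ j) ^ (θ - 1) = ((p : ℝ) ^ (θ - 1)) ^ j := by
    rw [← Real.rpow_natCast (p : ℝ) j, ← Real.rpow_mul (Nat.cast_nonneg p), mul_comm,
      Real.rpow_mul (Nat.cast_nonneg p), Real.rpow_natCast]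
  unfold SMT_f
  rw [SMT_tau_pp hp, Nat.cast_pow, h]

private lemma SMT_sum1 (c : ℕ) (ρ : ℝ) (h0 : 0 < ρ) (h1 : ρ < 1) : Summable (fun j : ℕ => ((j : ℝ) + 2) ^ c * ρ ^ j) := by
  have h := summable_pow_mul_geometric_of_norm_lt_one (R := ℝ) c (r := ρ) (by rw [Real.norm_of_nonneg h0.le]; exact h1)
  have h2 := (summable_nat_add_iff 2).2 h
  have h3 := h2.mul_left (ρ ^ 2)⁻¹
  refine h3.congr fun j => ?_
  push_cast
  field_simp
  ring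

private lemma SMT_sum2 (c : ℕ) (ρ : ℝ) (h0 : 0 < ρ) (h1 : ρ < 1) : Summable (fun j : ℕ => ((j : ℝ) + 1) ^ c * ρ ^ j) := by
  refine Summable.of_nonneg_of_le (fun j => by positivity) (fun j => ?_) (SMT_sum1 c ρ h0 h1)
  gcongr
  norm_num

private lemma SMT_loc (c : ℕ) : ∃ K : ℝ, 0 < K ∧ ∀ θ : ℝ, θ ≤ 1 / 2 → ∀ p : ℕ, p.Prime →
    Summable (fun j : ℕ => ‖SMT_f c θ (p ^ j)‖) ∧ 0 ≤ ∑' j : ℕ, SMT_f c θ (p ^ j) ∧
    ∑' j : ℕ, SMT_f c θ (p ^ j) ≤ 1 + K * (p : ℝ) ^ (θ - 1) := by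
  obtain ⟨ρ, hρ⟩ : ∃ ρ, ρ = (2 : ℝ) ^ (-(1 / 2) : ℝ) := ⟨_, rfl⟩
  have h0 : 0 < ρ := by rw [hρ]; positivity
  have h1 : ρ < 1 := by rw [hρ]; exact Real.rpow_lt_one_of_one_lt_of_neg (by norm_num) (by norm_num)
  have hS := SMT_sum1 c ρ h0 h1
  have hS0 : 0 ≤ ∑' j : ℕ, ((j : ℝ) + 2) ^ c * ρ ^ j := tsum_nonneg fun j => by positivity
  refine ⟨1 + ∑' j : ℕ, ((j : ℝ) + 2) ^ c * ρ ^ j, by linarith, ?_⟩
  intro θ hθ p hp
  have hp2 : (2 : ℝ) ≤ p := by exact_mod_cast hp.two_le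
  have ha0 : 0 < (p : ℝ) ^ (θ - 1) := Real.rpow_pos_of_pos (by linarith) _
  have haρ : (p : ℝ) ^ (θ - 1) ≤ ρ := by
    rw [hρ]
    calc (p : ℝ) ^ (θ - 1) ≤ (p : ℝ) ^ (-(1 / 2) : ℝ) := Real.rpow_le_rpow_of_exponent_le (by linarith) (by linarith)
      _ ≤ (2 : ℝ) ^ (-(1 / 2) : ℝ) := Real.rpow_le_rpow_of_nonpos (by norm_num) hp2 (by norm_num)
  obtain ⟨a, ha⟩ : ∃ a, a = (p : ℝ) ^ (θ - 1) := ⟨_, rfl⟩
  rw [← ha] at ha0 haρ ⊢
  have hf : (fun j : ℕ => SMT_f c θ (p ^ j)) = fun j : ℕ => ((j : ℝ) + 1) ^ c * a ^ j := by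
    funext j; rw [SMT_f_pp c θ hp, ha]
  have ha1 : a < 1 := lt_of_le_of_lt haρ h1
  have hsum : Summable (fun j : ℕ => ((j : ℝ) + 1) ^ c * a ^ j) := SMT_sum2 c a ha0 ha1
  refine ⟨?_, ?_, ?_⟩
  · have : (fun j : ℕ => ‖SMT_f c θ (p ^ j)‖) = fun j : ℕ => ((j : ℝ) + 1) ^ c * a ^ j := by
      funext j
      have h := congrFun hf j
      rw [h, Real.norm_of_nonneg (by positivity)]
    rw [this]; exact hsum
  · rw [hf]; exact tsum_nonneg fun j => by positivity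
  · rw [hf, hsum.tsum_eq_zero_add]
    have h2 : ∑' j : ℕ, (((j + 1 : ℕ) : ℝ) + 1) ^ c * a ^ (j + 1) ≤ ∑' j : ℕ, a * (((j : ℝ) + 2) ^ c * ρ ^ j) := by
      refine Summable.tsum_le_tsum (fun j => ?_) ((summable_nat_add_iff 1).2 hsum) (hS.mul_left a)
      have h3 : a ^ j ≤ ρ ^ j := pow_le_pow_left₀ ha0.le haρ j
      have h4 : (((j + 1 : ℕ) : ℝ) + 1) = (j : ℝ) + 2 := by push_cast; ring
      rw [h4, pow_succ]
      calc ((j : ℝ) + 2) ^ c * (a ^ j * a) = a * (((j : ℝ) + 2) ^ c * a ^ j) := by ring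
        _ ≤ _ := by gcongr
    rw [tsum_mul_left] at h2
    have h5 : (((0 : ℕ) : ℝ) + 1) ^ c * a ^ 0 = 1 := by simp
    rw [h5]
    nlinarith

private lemma SMT_tau_mul {m n : ℕ} (h : Nat.Coprime m n) : tau (m * n) = tau m * tau n := by
  unfold tau
  rw [h.card_divisors_mul]; push_cast; ring

private lemma SMT_f_mul (c : ℕ) (θ : ℝ) {m n : ℕ} (h : Nat.Coprime m n) : SMT_f c θ (m * n) = SMT_f c θ m * SMT_f c θ n := by
  unfold SMT_f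
  rw [SMT_tau_mul h, Nat.cast_mul, Real.mul_rpow (Nat.cast_nonneg m) (Nat.cast_nonneg n)]
  ring

private lemma SMT_f_nonneg (c : ℕ) (θ : ℝ) (n : ℕ) : 0 ≤ SMT_f c θ n := by
  unfold SMT_f tau
  positivity

private lemma SMT_prod (c : ℕ) : ∃ K : ℝ, 0 < K ∧ ∀ θ : ℝ, 0 ≤ θ → θ ≤ 1 / 2 → ∀ (Z : ℕ) (S : Finset ℕ),
    (∀ a ∈ S, a ≠ 0 ∧ ∀ p : ℕ, p.Prime → p ∣ a → p ≤ Z) →
    ∑ a ∈ S, SMT_f c θ a ≤ Real.exp (K * ((Z : ℝ) ^ θ * (1 + Real.log Z))) := by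
  classical
  obtain ⟨K, hK, hloc⟩ := SMT_loc c
  refine ⟨K, hK, fun θ hθ0 hθ Z S hS => ?_⟩
  have hf1 : SMT_f c θ 1 = 1 := by unfold SMT_f tau; simp
  obtain ⟨h1, h2⟩ := EulerProduct.summable_and_hasSum_smoothNumbers_prod_primesBelow_tsum hf1
    (fun {m n} h => SMT_f_mul c θ h) (fun {p} hp => (hloc θ hθ p hp).1) (Z + 1)
  have hmem : ∀ a ∈ S, a ∈ Nat.smoothNumbers (Z + 1) := by
    intro a ha
    obtain ⟨h3, h4⟩ := hS a ha
    rw [Nat.mem_smoothNumbers']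
    intro p hp hpa
    exact Nat.lt_succ_of_le (h4 p hp hpa)
  have e1 : ∑ a ∈ S, SMT_f c θ a = ∑ a ∈ S.subtype (· ∈ Nat.smoothNumbers (Z + 1)), SMT_f c θ a :=
    (Finset.sum_subtype_of_mem _ hmem).symm
  rw [e1]
  refine (sum_le_hasSum (S.subtype (· ∈ Nat.smoothNumbers (Z + 1))) (fun i _ => SMT_f_nonneg c θ (i : ℕ)) h2).trans ?_
  have h3 : ∏ p ∈ (Z + 1).primesBelow, ∑' n : ℕ, SMT_f c θ (p ^ n) ≤ ∏ p ∈ (Z + 1).primesBelow, Real.exp (K * (p : ℝ) ^ (θ - 1)) := by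
    refine prod_le_prod (fun p hp => (hloc θ hθ p (Nat.prime_of_mem_primesBelow hp)).2.1) fun p hp => ?_
    refine (hloc θ hθ p (Nat.prime_of_mem_primesBelow hp)).2.2.trans ?_
    rw [add_comm]
    exact Real.add_one_le_exp _
  refine h3.trans ?_
  rw [← Real.exp_sum, ← mul_sum]
  refine Real.exp_le_exp.2 (mul_le_mul_of_nonneg_left ?_ hK.le)
  have h4 : ∀ p ∈ (Z + 1).primesBelow, (p : ℝ) ^ (θ - 1) ≤ (Z : ℝ) ^ θ * (1 / (p : ℝ)) := by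
    intro p hp
    have hpp := Nat.prime_of_mem_primesBelow hp
    have hpZ : p ≤ Z := Nat.lt_succ_iff.1 (Nat.lt_of_mem_primesBelow hp)
    have hp0 : (0 : ℝ) < p := by exact_mod_cast hpp.pos
    rw [Real.rpow_sub hp0, Real.rpow_one, mul_one_div]
    gcongr
  refine (sum_le_sum h4).trans ?_
  rw [← mul_sum]
  refine mul_le_mul_of_nonneg_left ?_ (by positivity)
  rcases Nat.eq_zero_or_pos Z with h0 | h0
  · subst h0
    have : (0 + 1 : ℕ).primesBelow = ∅ := by decide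
    rw [this]; simp
  · calc ∑ p ∈ (Z + 1).primesBelow, 1 / (p : ℝ) ≤ ∑ n ∈ Icc 1 Z, 1 / (n : ℝ) := by
          refine sum_le_sum_of_subset_of_nonneg (fun p hp => ?_) fun _ _ _ => by positivity
          exact mem_Icc.2 ⟨(Nat.prime_of_mem_primesBelow hp).pos, Nat.lt_succ_iff.1 (Nat.lt_of_mem_primesBelow hp)⟩
      _ ≤ 1 + Real.log Z := by
          have h := harmonic_le_one_add_log Z
          rw [harmonic_eq_sum_Icc] at h
          push_cast at h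
          simp only [one_div]
          exact h

private lemma SMT_large (η : ℝ) (hη : 0 < η) (k : ℕ) (c : ℝ) : ∃ x₀ : ℕ, ∀ x : ℕ, x₀ ≤ x →
    Real.log x ^ k ≤ (x : ℝ) ^ η ∧ c ≤ Real.log x := by
  have h1 : ∀ᶠ y : ℝ in Filter.atTop, Real.log y ^ k ≤ y ^ η := by
    have h := (isLittleO_log_rpow_rpow_atTop (k : ℝ) hη).def (show (0 : ℝ) < 1 by norm_num)
    filter_upwards [h, Filter.eventually_ge_atTop 1] with y hy hy1
    have h2 : 0 ≤ Real.log y := Real.log_nonneg hy1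
    rw [Real.rpow_natCast, one_mul, Real.norm_of_nonneg (pow_nonneg h2 k),
      Real.norm_of_nonneg (Real.rpow_nonneg (by linarith) η)] at hy
    exact hy
  have h2 := h1.and (Real.tendsto_log_atTop.eventually_ge_atTop c)
  have h3 := (tendsto_natCast_atTop_atTop (R := ℝ)).eventually h2
  obtain ⟨x₀, hx₀⟩ := Filter.eventually_atTop.1 h3
  exact ⟨x₀, fun x hx => hx₀ x hx⟩

open scoped Classical in
/-- the sum over `n` is at most a sum over the smooth divisors -/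
private lemma SMT_swap (hTAM : Pool.Agent.SK.TAM_stmt) (c N Z : ℕ) (y : ℝ) (hN : 1 ≤ N) :
    ∑ n ∈ Icc 1 N with (∃ a : ℕ, a ∣ n ∧ y < (a : ℝ) ∧ ∀ p : ℕ, p.Prime → p ∣ a → p ≤ Z), (#n.divisors : ℝ) ^ c ≤
      N * (1 + Real.log N) ^ (2 ^ c) * ∑ a ∈ (Icc 1 N).filter (fun a : ℕ => y < (a : ℝ) ∧ ∀ p : ℕ, p.Prime → p ∣ a → p ≤ Z), tau a ^ c * (1 / (a : ℝ)) := by
  have h1 : ∑ n ∈ Icc 1 N with (∃ a : ℕ, a ∣ n ∧ y < (a : ℝ) ∧ ∀ p : ℕ, p.Prime → p ∣ a → p ≤ Z), (#n.divisors : ℝ) ^ c ≤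
      ∑ n ∈ Icc 1 N, ∑ a ∈ (Icc 1 N).filter (fun a : ℕ => y < (a : ℝ) ∧ ∀ p : ℕ, p.Prime → p ∣ a → p ≤ Z), if a ∣ n then (#n.divisors : ℝ) ^ c else 0 := by
    rw [sum_filter]
    refine sum_le_sum fun n hn => ?_
    split_ifs with hc
    · obtain ⟨a, had, hay, hap⟩ := hc
      obtain ⟨hn1, hn2⟩ := mem_Icc.1 hn
      have hmem : a ∈ (Icc 1 N).filter (fun a : ℕ => y < (a : ℝ) ∧ ∀ p : ℕ, p.Prime → p ∣ a → p ≤ Z) := by
        rw [mem_filter, mem_Icc]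
        exact ⟨⟨Nat.pos_of_dvd_of_pos had hn1, (Nat.le_of_dvd hn1 had).trans hn2⟩, hay, hap⟩
      calc (#n.divisors : ℝ) ^ c = if a ∣ n then (#n.divisors : ℝ) ^ c else 0 := by rw [if_pos had]
        _ ≤ _ := single_le_sum (f := fun a => if a ∣ n then (#n.divisors : ℝ) ^ c else 0)
            (fun _ _ => by split_ifs <;> positivity) hmem
    · exact sum_nonneg fun a _ => by split_ifs <;> positivity
  refine h1.trans ?_
  rw [sum_comm, mul_sum]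
  refine sum_le_sum fun a ha => ?_
  rw [mem_filter, mem_Icc] at ha
  obtain ⟨⟨ha1, ha2⟩, _⟩ := ha
  rw [← sum_filter]
  have himg : (Icc 1 N).filter (fun n => a ∣ n) = (Ioc 0 (N / a)).image (fun k => a * k) := by
    ext n
    rw [mem_filter, mem_Icc, mem_image]
    constructor
    · rintro ⟨⟨h3, h4⟩, k, rfl⟩
      refine ⟨k, mem_Ioc.mpr ⟨?_, ?_⟩, rfl⟩
      · rcases Nat.eq_zero_or_pos k with h | h
        · rw [h, mul_zero] at h3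
          omega
        · exact h
      · rw [Nat.le_div_iff_mul_le ha1, mul_comm]
        exact h4
    · rintro ⟨k, hk, rfl⟩
      obtain ⟨h3, h4⟩ := mem_Ioc.mp hk
      rw [Nat.le_div_iff_mul_le ha1, mul_comm] at h4
      exact ⟨⟨Nat.mul_pos ha1 h3, h4⟩, Dvd.intro _ rfl⟩
  rw [himg, sum_image (fun u _ v _ h => Nat.eq_of_mul_eq_mul_left ha1 h)]
  have h3 : ∀ k ∈ Ioc 0 (N / a), (#(a * k).divisors : ℝ) ^ c ≤ tau a ^ c * tau k ^ c := by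
    intro k _
    rw [← mul_pow]
    exact pow_le_pow_left₀ (Nat.cast_nonneg _) (Pool.Agent.helper85.BVP.tau_mul_le a k) c
  refine (sum_le_sum h3).trans ?_
  rw [← mul_sum]
  have h4 := (hTAM c (N / a)).1
  have ha0 : (0 : ℝ) < a := by exact_mod_cast ha1
  have h5 : ((N / a : ℕ) : ℝ) ≤ (N : ℝ) * (1 / (a : ℝ)) := by
    rw [mul_one_div]; exact Nat.cast_div_le
  have hN1 : (1 : ℝ) ≤ N := by exact_mod_cast hN
  have hl : 0 ≤ Real.log N := Real.log_nonneg hN1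
  have h6 : (1 + Real.log ((N / a : ℕ) : ℝ)) ^ (2 ^ c) ≤ (1 + Real.log N) ^ (2 ^ c) := by
    rcases Nat.eq_zero_or_pos (N / a) with h | h
    · rw [h, Nat.cast_zero, Real.log_zero, add_zero]
      exact pow_le_pow_left₀ zero_le_one (by linarith) _
    · have h7 : (1 : ℝ) ≤ ((N / a : ℕ) : ℝ) := by exact_mod_cast h
      have h8 : ((N / a : ℕ) : ℝ) ≤ N := by exact_mod_cast Nat.div_le_self N a
      have h9 : Real.log ((N / a : ℕ) : ℝ) ≤ Real.log N := Real.log_le_log (by linarith) h8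
      have h10 : 0 ≤ Real.log ((N / a : ℕ) : ℝ) := Real.log_nonneg h7
      exact pow_le_pow_left₀ (by linarith) (by linarith) _
  have h7' : (0 : ℝ) ≤ ((N / a : ℕ) : ℝ) := Nat.cast_nonneg _
  have ht : 0 ≤ tau a ^ c := by unfold tau; positivity
  calc tau a ^ c * ∑ k ∈ Ioc 0 (N / a), tau k ^ c
      ≤ tau a ^ c * (((N / a : ℕ) : ℝ) * (1 + Real.log ((N / a : ℕ) : ℝ)) ^ (2 ^ c)) := mul_le_mul_of_nonneg_left h4 ht
    _ ≤ tau a ^ c * (((N : ℝ) * (1 / (a : ℝ))) * (1 + Real.log N) ^ (2 ^ c)) := by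
        refine mul_le_mul_of_nonneg_left ?_ ht
        exact (mul_le_mul_of_nonneg_left h6 h7').trans (mul_le_mul_of_nonneg_right h5 (by positivity))
    _ = N * (1 + Real.log N) ^ (2 ^ c) * (tau a ^ c * (1 / (a : ℝ))) := by ring

theorem SMT (hTAM : Pool.Agent.SK.TAM_stmt) : SMT_stmt := by
  classical
  intro c C₀ A ε hC₀ hε
  obtain ⟨K, hK, hprod⟩ := SMT_prod c
  obtain ⟨θ, hθ⟩ : ∃ θ, θ = 1 / (2 * (C₀ : ℝ)) := ⟨_, rfl⟩
  have hC₀r : (1 : ℝ) ≤ C₀ := by exact_mod_cast hC₀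
  have hθ0 : 0 < θ := by rw [hθ]; positivity
  have hθ1 : θ ≤ 1 / 2 := by
    rw [hθ, div_le_div_iff₀ (by positivity) (by norm_num)]; linarith
  have hη : 0 < ε * θ / 2 := by positivity
  obtain ⟨D, hD⟩ : ∃ D, D = K * (1 + 4 * C₀) * (2 / (ε * θ)) := ⟨_, rfl⟩
  have hD0 : 0 < D := by rw [hD]; positivity
  obtain ⟨x₁, hx₁⟩ := SMT_large (ε * θ / 2) hη (2 ^ c + 2 ^ c + A) (5 + D ^ 4)
  refine ⟨max x₁ 3, ?_⟩
  intro x hx Z N hZ hN hNx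
  obtain ⟨hLk, hLc⟩ := hx₁ x ((le_max_left _ _).trans hx)
  have hx3 : 3 ≤ x := (le_max_right _ _).trans hx
  have hx0 : (0 : ℝ) < x := by exact_mod_cast (by omega : 0 < x)
  have hx1 : (1 : ℝ) ≤ x := by exact_mod_cast (by omega : 1 ≤ x)
  obtain ⟨L, hL⟩ : ∃ L, L = Real.log x := ⟨_, rfl⟩
  rw [← hL] at hLk hLc hZ ⊢
  have hL5 : 5 ≤ L := by nlinarith [pow_pos hD0 4]
  have hLD : D ^ 4 ≤ L := by linarith
  have hL0 : 0 < L := by linarith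
  have hL1 : 1 ≤ L := by linarith
  have hN1 : (1 : ℝ) ≤ N := by exact_mod_cast hN
  have hlogN : 1 + Real.log N ≤ 5 * L := by
    have : Real.log N ≤ 4 * L := by
      rw [hL]
      calc Real.log N ≤ Real.log ((x : ℝ) ^ 4) := Real.log_le_log (by linarith) (by exact_mod_cast hNx)
        _ = 4 * Real.log x := by rw [Real.log_pow]; norm_num
    linarith
  have hlogN0 : 0 ≤ Real.log N := Real.log_nonneg hN1
  -- the exponent
  have hexp : K * ((Z : ℝ) ^ θ * (1 + Real.log Z)) ≤ ε * θ / 2 * L := by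
    have e1 : (Z : ℝ) ^ θ ≤ L ^ (1 / 2 : ℝ) := by
      calc (Z : ℝ) ^ θ ≤ (L ^ C₀) ^ θ := Real.rpow_le_rpow (Nat.cast_nonneg _) hZ hθ0.le
        _ = L ^ (1 / 2 : ℝ) := by
            rw [← Real.rpow_natCast, ← Real.rpow_mul hL0.le, hθ]
            congr 1
            field_simp
    have e2 : Real.log Z ≤ C₀ * (4 * L ^ (1 / 4 : ℝ)) := by
      rcases Nat.eq_zero_or_pos Z with h0 | h0
      · rw [h0, Nat.cast_zero, Real.log_zero]; positivity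
      · calc Real.log Z ≤ Real.log (L ^ C₀) := Real.log_le_log (by exact_mod_cast h0) hZ
          _ = C₀ * Real.log L := Real.log_pow _ _
          _ ≤ C₀ * (L ^ (1 / 4 : ℝ) / (1 / 4)) := by
              gcongr
              exact Real.log_le_rpow_div hL0.le (by norm_num)
          _ = C₀ * (4 * L ^ (1 / 4 : ℝ)) := by ring
    have e3 : (1 : ℝ) ≤ L ^ (1 / 4 : ℝ) := Real.one_le_rpow hL1 (by norm_num)
    have e4 : 1 + Real.log Z ≤ (1 + 4 * C₀) * L ^ (1 / 4 : ℝ) := by nlinarith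
    have e5 : D ≤ L ^ (1 / 4 : ℝ) := by
      calc D = (D ^ 4) ^ (1 / 4 : ℝ) := by
            rw [← Real.rpow_natCast, ← Real.rpow_mul hD0.le]; norm_num
        _ ≤ L ^ (1 / 4 : ℝ) := Real.rpow_le_rpow (by positivity) hLD (by norm_num)
    have e0 : 0 ≤ 1 + Real.log Z := by
      have := Real.log_natCast_nonneg Z
      linarith
    have e6 : L ^ (1 / 2 : ℝ) * L ^ (1 / 4 : ℝ) * L ^ (1 / 4 : ℝ) = L := by
      rw [← Real.rpow_add hL0, ← Real.rpow_add hL0]; norm_num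
    calc K * ((Z : ℝ) ^ θ * (1 + Real.log Z)) ≤ K * (L ^ (1 / 2 : ℝ) * ((1 + 4 * C₀) * L ^ (1 / 4 : ℝ))) := by gcongr
      _ = K * (1 + 4 * C₀) * (2 / (ε * θ)) * (ε * θ / 2) * (L ^ (1 / 2 : ℝ) * L ^ (1 / 4 : ℝ)) := by field_simp
      _ = D * (ε * θ / 2) * (L ^ (1 / 2 : ℝ) * L ^ (1 / 4 : ℝ)) := by rw [hD]
      _ ≤ L ^ (1 / 4 : ℝ) * (ε * θ / 2) * (L ^ (1 / 2 : ℝ) * L ^ (1 / 4 : ℝ)) := by gcongr
      _ = ε * θ / 2 * (L ^ (1 / 2 : ℝ) * L ^ (1 / 4 : ℝ) * L ^ (1 / 4 : ℝ)) := by ring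
      _ = ε * θ / 2 * L := by rw [e6]
  have hxexp : Real.exp (ε * θ / 2 * L) = (x : ℝ) ^ (ε * θ / 2) := by
    rw [Real.rpow_def_of_pos hx0, hL, mul_comm]
  -- the smooth sum
  have hsm : ∑ a ∈ (Icc 1 N).filter (fun a : ℕ => (x : ℝ) ^ ε < (a : ℝ) ∧ ∀ p : ℕ, p.Prime → p ∣ a → p ≤ Z), tau a ^ c * (1 / (a : ℝ)) ≤
      (x : ℝ) ^ (-(ε * θ)) * (x : ℝ) ^ (ε * θ / 2) := by
    have h1 : ∀ a ∈ (Icc 1 N).filter (fun a : ℕ => (x : ℝ) ^ ε < (a : ℝ) ∧ ∀ p : ℕ, p.Prime → p ∣ a → p ≤ Z),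
        tau a ^ c * (1 / (a : ℝ)) ≤ (x : ℝ) ^ (-(ε * θ)) * SMT_f c θ a := by
      intro a ha
      rw [mem_filter, mem_Icc] at ha
      obtain ⟨⟨ha1, _⟩, hay, _⟩ := ha
      have ha0 : (0 : ℝ) < a := by exact_mod_cast ha1
      have h2 : (x : ℝ) ^ (ε * θ) ≤ (a : ℝ) ^ θ := by
        rw [Real.rpow_mul hx0.le]
        exact Real.rpow_le_rpow (by positivity) hay.le hθ0.le
      have h3 : 1 / (a : ℝ) ≤ (x : ℝ) ^ (-(ε * θ)) * (a : ℝ) ^ (θ - 1) := by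
        rw [Real.rpow_sub ha0, Real.rpow_one, Real.rpow_neg hx0.le, div_le_iff₀ ha0]
        have h4 : 0 < (x : ℝ) ^ (ε * θ) := by positivity
        calc (1 : ℝ) = ((x : ℝ) ^ (ε * θ))⁻¹ * (x : ℝ) ^ (ε * θ) := by field_simp
          _ ≤ ((x : ℝ) ^ (ε * θ))⁻¹ * (a : ℝ) ^ θ := by gcongr
          _ = ((x : ℝ) ^ (ε * θ))⁻¹ * ((a : ℝ) ^ θ / a) * a := by field_simp
      have ht : 0 ≤ tau a ^ c := by unfold tau; positivity
      unfold SMT_f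
      calc tau a ^ c * (1 / (a : ℝ)) ≤ tau a ^ c * ((x : ℝ) ^ (-(ε * θ)) * (a : ℝ) ^ (θ - 1)) := mul_le_mul_of_nonneg_left h3 ht
        _ = _ := by ring
    refine (sum_le_sum h1).trans ?_
    rw [← mul_sum]
    refine mul_le_mul_of_nonneg_left ?_ (by positivity)
    refine (hprod θ hθ0.le hθ1 Z _ fun a ha => ?_).trans ?_
    · rw [mem_filter, mem_Icc] at ha
      exact ⟨by omega, ha.2.2⟩
    · rw [← hxexp]
      exact Real.exp_le_exp.2 hexp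
  refine (SMT_swap hTAM c N Z ((x : ℝ) ^ ε) hN).trans ?_
  have hx2 : (x : ℝ) ^ (-(ε * θ)) * (x : ℝ) ^ (ε * θ / 2) = ((x : ℝ) ^ (ε * θ / 2))⁻¹ := by
    rw [← Real.rpow_add hx0, ← Real.rpow_neg hx0.le]; congr 1; ring
  rw [hx2] at hsm
  have h5 : (1 + Real.log N) ^ (2 ^ c) ≤ L ^ (2 ^ c) * L ^ (2 ^ c) := by
    rw [← mul_pow]
    refine pow_le_pow_left₀ (by linarith) ?_ _
    nlinarith
  have hE0 : 0 < (x : ℝ) ^ (ε * θ / 2) := by positivity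
  have hs0 : 0 ≤ ∑ a ∈ (Icc 1 N).filter (fun a : ℕ => (x : ℝ) ^ ε < (a : ℝ) ∧ ∀ p : ℕ, p.Prime → p ∣ a → p ≤ Z), tau a ^ c * (1 / (a : ℝ)) :=
    sum_nonneg fun a _ => by unfold tau; positivity
  calc (N : ℝ) * (1 + Real.log N) ^ (2 ^ c) * _ ≤ (N : ℝ) * (L ^ (2 ^ c) * L ^ (2 ^ c)) * ((x : ℝ) ^ (ε * θ / 2))⁻¹ := by
        gcongr
    _ ≤ (N : ℝ) * (L ^ (2 ^ c) * L ^ (2 ^ c)) * (L ^ (2 ^ c + 2 ^ c + A))⁻¹ := by gcongr
    _ = N / L ^ A := by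
        rw [pow_add, pow_add]
        field_simp

end Pool.Agent.EU
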