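import Pool.Agent.helper52.EU.SpecY

/-!
# Project eu (MP_ad8ced_nt: almost all primes `p`), Spec K: the key estimates of block Y (frequency sums of the rough Möbius function and of `cc`)

RULES.  File `Pool/Agent/<seat>/EU/XX.lean`:

  import Pool.Agent.helper52.EU.SpecK
  set_option autoImplicit false
  open Finset
  namespace Pool.Agent.EU
  open Pool.Agent.FI Pool.Agent.HK Pool.Agent.BP Pool.Agent.YB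
  open Pool.Agent.CH (nit rgh)
  theorem XX (h1 : YY_stmt) ... : XX_stmt := ...
  end Pool.Agent.EU

Auxiliary lemmas prefixed `XX_` (private where possible).  Never change this file.  If a statement is wrong tell helper52 at once.  No `convert` / `congr!`, no straight double quotes, no sorry.

`L = log x`.  `HX ξ i₁ i κ z` = `ξ z sgn(N8 z)^i exp(iκ yy z)` for `z ∈ Fd` (`s1 z = 1` there).  `Ψ_m = HX ξ i₁ i (fr α m)`.  `wm`, `w1`, `wl`: the Möbius function, `1` on the rough elements, `log` on the prime elements of norm `> Z`.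
A frequency `m` is exceptional if `ξ` is principal and `m = 0` (then `α = 0` and `fr α m = 0`).
-/

set_option autoImplicit false

open Finset

noncomputable section

namespace Pool.Agent.EU

open Pool.Agent.FI Pool.Agent.HK Pool.Agent.BP Pool.Agent.YB
open Pool.Agent.CH (nit rgh)

/-- the data of one family of characters -/
def Dta (x q B : ℕ) (ξ : ℤ × ℤ → ℂ) (i₁ i : ℕ) (α : ℝ) : Prop :=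
  IsX q ξ ∧ (q : ℝ) ≤ Real.log x ^ B ∧ i₁ ≤ 1 ∧ i ≤ 1 ∧ 0 ≤ α ∧ α < 2 * Real.pi ∧ ∀ m : ℤ, XInv ξ i₁ (fr α m)

open scoped Classical in
/-- `1` on the rough elements -/
def w1 (Z : ℝ) (z : ℤ × ℤ) : ℂ := if rgh Z (nn z) then 1 else 0

open scoped Classical in
/-- the Möbius function of the rough elements -/
def wm (Z : ℝ) (z : ℤ × ℤ) : ℂ := if rgh Z (nn z) then (mue z : ℂ) else 0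

open scoped Classical in
/-- `log` on the prime elements of norm `> Z` -/
def wl (Z : ℝ) (z : ℤ × ℤ) : ℂ := if (nn z).Prime ∧ Z < nn z then (Real.log (nn z) : ℂ) else 0

/-- the cut at `z₀` -/
def ct (z₀ : ℕ) (w : ℤ × ℤ → ℂ) (z : ℤ × ℤ) : ℂ := if nn z ≤ z₀ then w z else 0

/-- `1` at the element `1` -/
def wu (z : ℤ × ℤ) : ℂ := if nn z = 1 then 1 else 0

/-- the sum over the shell `a < nn z ≤ b` -/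
def Sh (w Ψ : ℤ × ℤ → ℂ) (t : ℝ) (a b : ℕ) : ℂ := ∑ z ∈ FF b with a < nn z, w z * (Ψ z * nit t (nn z))

/-- a short interval: `b ≤ 2a`, or `{1}` -/
def Cel (a b : ℕ) : Prop := a < b ∧ (b ≤ 2 * a ∨ (a = 0 ∧ b = 1))

/-- the frequency sums of `β` save `L^A` -/
def KF (x N M₁ B A : ℕ) (T : ℝ) (β : ℕ → ℝ) : Prop := ∀ (q : ℕ) (ξ : ℤ × ℤ → ℂ), IsX q ξ → (q : ℝ) ≤ Real.log x ^ B →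
  ∀ i₁ i : ℕ, i₁ ≤ 1 → i ≤ 1 → ∀ α t : ℝ, 0 ≤ α → α < 2 * Real.pi → (∀ m : ℤ, XInv ξ i₁ (fr α m)) → |t| ≤ T → ∀ N' : ℕ, N ≤ N' → N' ≤ 2 * N →
  ∑ m ∈ Icc (-(M₁ : ℤ)) M₁, ‖∑ z ∈ ZD N with nn z ≤ N', (β (nn z) : ℂ) * HX ξ i₁ i (fr α m) z * nit t (nn z)‖ ^ 2 ≤ (N : ℝ) ^ 2 / Real.log x ^ A

/-! ## The inputs from the characters (helper36) -/

/-- **GHX** (short; from TRX, MUX of `Pool.Agent.helper36.YB.Spec`, SIZ).  The Dirichlet series of `Ψ` is a product of two completely multiplicative ones.  TRX and MUX for the modulus `2q` (`UX q Ψ → UX (2q) Ψ`: the norms are odd). -/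
def GHX_stmt : Prop := ∀ (q : ℕ) (Ψ : ℤ × ℤ → ℂ), UX q Ψ → ∃ g h : ℕ → ℂ, CM g ∧ CM h ∧ ∀ n : ℕ, 1 ≤ n → rf Ψ n = cv g h n ∧
  rf (fun z => (mue z : ℂ) * Ψ z) n = cv (mg g) (mg h) n

/-- **UHX** (short, medium; from UXH, MZX of `Pool.Agent.helper36.YB.Spec`).  `HX` is a character; sum over the odd classes: `ξ v = 0` unless `v.1` is odd (`q` even), and `range (2q) ×ˢ range (2q)` contains every class modulo `q` four times: `4 ∑_{range q ×ˢ range q} ξ = 0` (MZX). -/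
def UHX_stmt : Prop := (∀ (q : ℕ) (ξ : ℤ × ℤ → ℂ) (i₁ i : ℕ) (κ : ℝ), IsX q ξ → XInv ξ i₁ κ → UX q (HX ξ i₁ i κ)) ∧
  ∀ (q : ℕ) (ξ : ℤ × ℤ → ℂ), IsX q ξ → NPr q ξ → ∑ v ∈ range (2 * q) ×ˢ range (2 * q) with v.1 % 2 = 1, ξ ((v.1 : ℤ), (v.2 : ℤ)) = 0

/-- **SUM** (medium; from PSR of `Pool.Agent.helper36.YB.Spec`, SRF).  Sup bound for the rough Möbius function, all characters and all frequencies.  `2^e ≤ N < 2^(e+1)`, `Sh = F(N') - F(N)`, `F(V) = ∑_{e' = e, e+1} pol (wR Z V * HX) e' t` (only `e' = e` if `N' < 2^(e+1)`); PSR with `A + 1`, `ε₀ = ε/2`. -/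
def SUM_stmt : Prop := ∀ (A B K C₀ : ℕ) (ε : ℝ), 0 < ε → ∃ x₀ : ℕ, ∀ x : ℕ, x₀ ≤ x → ∀ (q : ℕ) (ξ : ℤ × ℤ → ℂ) (i₁ i : ℕ) (κ t Z : ℝ) (N N' : ℕ),
  IsX q ξ → (q : ℝ) ≤ Real.log x ^ B → i₁ ≤ 1 → i ≤ 1 → XInv ξ i₁ κ → |κ| ≤ (x : ℝ) ^ K → |t| ≤ (x : ℝ) ^ K → 8 ≤ Z → Z ≤ Real.log x ^ C₀ →
  (x : ℝ) ^ ε ≤ N → N ≤ N' → N' ≤ 2 * N → N' ≤ x ^ 4 → ‖Sh (wm Z) (HX ξ i₁ i κ) t N N'‖ ≤ N / Real.log x ^ A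

/-- **SUP** (medium; from PSX of `Pool.Agent.helper36.YB.Spec`, SRF).  Sup bound for the prime elements, as SUM (`Z ≤ N`: `wl Z z = wP V z` for `N < nn z ≤ V`). -/
def SUP_stmt : Prop := ∀ (A B K : ℕ) (ε : ℝ), 0 < ε → ∃ x₀ : ℕ, ∀ x : ℕ, x₀ ≤ x → ∀ (q : ℕ) (ξ : ℤ × ℤ → ℂ) (i₁ i : ℕ) (κ t Z : ℝ) (N N' : ℕ),
  IsX q ξ → (q : ℝ) ≤ Real.log x ^ B → i₁ ≤ 1 → i ≤ 1 → XInv ξ i₁ κ → |κ| ≤ (x : ℝ) ^ K → |t| ≤ (x : ℝ) ^ K → (κ ≠ 0 ∨ NPr q ξ) → Z ≤ N →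
  (x : ℝ) ^ ε ≤ N → N ≤ N' → N' ≤ 2 * N → N' ≤ x ^ 4 → ‖Sh (wl Z) (HX ξ i₁ i κ) t N N'‖ ≤ N / Real.log x ^ A

/-! ## Identities -/

/-- **HBE** (medium; the identity of order 2 for the rough Möbius function).  From GHX, FDE, FDU, SIZ.  `F n = rf (w1 Z * Ψ) n = [n rough] rf Ψ n`, `G n = rf (wm Z * Ψ) n = [n rough] rf (mue Ψ) n` for `n ≥ 1` (`rgh Z n`; `0` at `0`): `F * G = 1` as arithmetic functions (`cv g h * cv (mg g) (mg h) = 1` since `g * mg g = 1` for `CM g`; `n` is rough iff all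
its divisors are rough).  With `G₀ = trn z₀ G`: `(G - G₀) * (G - G₀) * F` vanishes at `n ≤ z₀²`, so `G n = 2 G₀ n - (G₀ * G₀ * F) n = -(G₀ * G₀ * F) n` for `z₀ < n ≤ z₀²`.  Multiply by `H n`, sum, and write the three factors as sums over elements (`SRF`: `∑_{n ≤ y} rf f n = ∑_{z ∈ FF y} f z`). -/
def HBE_stmt : Prop := ∀ (q : ℕ) (Ψ : ℤ × ℤ → ℂ), UX q Ψ → ∀ (Z : ℝ) (z₀ a b : ℕ) (H : ℕ → ℂ), 1 ≤ z₀ → z₀ ≤ a → b ≤ z₀ ^ 2 → (∀ n, H n ≠ 0 → a < n ∧ n ≤ b) →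
  ∑ z ∈ FF b, wm Z z * Ψ z * H (nn z) = -∑ z₁ ∈ FF b, ∑ z₂ ∈ FF b, ∑ z₃ ∈ FF b,
    ct z₀ (wm Z) z₁ * ct z₀ (wm Z) z₂ * w1 Z z₃ * (Ψ z₁ * Ψ z₂ * Ψ z₃) * H (nn z₁ * nn z₂ * nn z₃)

open scoped Classical in
/-- **RSE** (medium; rough = smooth Möbius * all).  From GHX, SIZ and `HSF_stmt` (of BP, proved; only the first claim, with `y = Z`; `cv (rg y g) (rg y h) n = [n rough] cv g h n`, `hs y g h n = [n smooth] cv (mg g) (mg h) n`).  `[n rough] rf Ψ n = ∑_{a b = n, a smooth} rf (mue Ψ) a rf Ψ b`. -/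
def RSE_stmt : Prop := ∀ (q : ℕ) (Ψ : ℤ × ℤ → ℂ), UX q Ψ → ∀ (Z : ℝ) (N : ℕ) (H : ℕ → ℂ), (∀ n, H n ≠ 0 → n ≤ N) →
  ∑ z ∈ FF N, w1 Z z * Ψ z * H (nn z) = ∑ w ∈ FF N with smt Z (nn w), ∑ v ∈ FF N, (mue w : ℂ) * (Ψ w * Ψ v) * H (nn w * nn v)

/-- **PR3** (short, medium).  From PR2.  First PR2 in `z₁, z₂` for every `z₃` (bound `G (n * nn z₃)`), then PR2 for `F' v z₃ = b v` (bound `τ(nn v)³ G (nn v * nn z₃) ≤ τ(nn v * nn z₃)³ G`). -/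
def PR3_stmt : Prop := ∀ (M₁ M₂ M₃ : ℕ) (F : ℤ × ℤ → ℤ × ℤ → ℤ × ℤ → ℂ) (G : ℕ → ℝ), 1 ≤ M₁ → 1 ≤ M₂ → 1 ≤ M₃ → (∀ n, 0 ≤ G n) →
  (∀ z₁ ∈ FF M₁, ∀ z₂ ∈ FF M₂, ∀ z₃ ∈ FF M₃, ‖F z₁ z₂ z₃‖ ≤ G (nn z₁ * nn z₂ * nn z₃)) →
  ∃ b : ℤ × ℤ → ℂ, (∀ v, ‖b v‖ ≤ (#(nn v).divisors : ℝ) ^ 6 * G (nn v)) ∧
    ∀ Ψ : ℤ × ℤ → ℂ, MU Ψ → ∑ z₁ ∈ FF M₁, ∑ z₂ ∈ FF M₂, ∑ z₃ ∈ FF M₃, F z₁ z₂ z₃ * (Ψ z₁ * Ψ z₂ * Ψ z₃) = ∑ v ∈ FF (M₁ * M₂ * M₃), b v * Ψ v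

open scoped Classical in
/-- **MVQ** (short, medium; mean value with sparse support).  From MV2, TFE.  `N + M₁ √N ≤ 2N`; `∑_{v ∈ FF N} ‖b v‖² ≤ V² ∑_{v, Q (nn v)} τ^(2c) ≤ V² ∑_{n ≤ N, Q n} τ(n)^(2c+2)`. -/
def MVQ_stmt : Prop := ∃ C : ℝ, 0 < C ∧ ∀ (N M₁ c : ℕ) (α V : ℝ) (Q : ℕ → Prop) (b : ℤ × ℤ → ℂ), 1 ≤ M₁ → M₁ ^ 2 ≤ N → 0 ≤ α → α ≤ 2 * Real.pi → 0 ≤ V →
  (∀ v, ‖b v‖ ≤ V * (#(nn v).divisors : ℝ) ^ c) → (∀ v, b v ≠ 0 → Q (nn v)) →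
  ∑ m ∈ Icc (-(M₁ : ℤ)) M₁, ‖∑ v ∈ FF N, b v * Complex.exp (((fr α m * yy v : ℝ) : ℂ) * Complex.I)‖ ^ 2
    ≤ C * V ^ 2 * N * ∑ n ∈ Icc 1 N with Q n, (#n.divisors : ℝ) ^ (2 * c + 2)

/-! ## Cells -/

/-- **CSP** (medium, long; separation of the variables by short intervals).  From PR3, MVQ, `SK.TAM_stmt`.  Cells: `n ≥ 1` lies in exactly one of the cells `(⌊2^((j-1)/P)⌋, ⌊2^(j/P)⌋]`, `j ≥ 0` (`j = 0`: `{1}`); they satisfy `Cel` (`P ≥ 2`).  For `(z₁, z₂, z₃)` in the cells `j₁, j₂, j₃`: `2^((∑j-3)/P) < nn z₁ nn z₂ nn z₃ ≤ 2^(∑j/P)`.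
Good triples: `a ≤ 2^((∑j-3)/P)` and `2^(∑j/P) ≤ b`: for them the condition `a < .. ≤ b` holds throughout the cells, and `∏ b' k ≥ 2^(∑j/P)/8 ≥ N/8`.  Cauchy-Schwarz over the good triples (at most `(C P (1 + log N))³`), and the hypothesis for each.
The other `(z₁,z₂,z₃)` with `a < .. ≤ b`: the product of the norms lies in `(a, a 2^(3/P)]` or `(b 2^(-3/P), b]`, at most `C N/P + 2` integers `n`: PR3 with `G n = V³ [n is one of them]`, MVQ with `c = 6`, `∑_{n ∈ Q} τ(n)^14 ≤ (#Q)^(1/2) (∑_{n ≤ 2N} τ(n)^28)^(1/2)`. -/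
def CSP_stmt : Prop := ∃ (C : ℝ) (E : ℕ), 0 < C ∧ ∀ (α : ℝ) (Ψ : ℤ → ℤ × ℤ → ℂ) (c : ℤ × ℤ → ℂ), FamX α Ψ c → 0 ≤ α → α ≤ 2 * Real.pi →
  ∀ (N a b M₁ P : ℕ) (V W : ℝ) (u₁ u₂ u₃ : ℤ × ℤ → ℂ) (T : Finset ℤ), T ⊆ Icc (-(M₁ : ℤ)) M₁ → 1 ≤ M₁ → M₁ ^ 2 ≤ N → N ≤ a → a ≤ b → b ≤ 2 * N → 2 ≤ P → 1 ≤ V → 0 ≤ W →
  (∀ z, ‖u₁ z‖ ≤ V) → (∀ z, ‖u₂ z‖ ≤ V) → (∀ z, ‖u₃ z‖ ≤ V) →
  (∀ a₁ b₁ a₂ b₂ a₃ b₃ : ℕ, Cel a₁ b₁ → Cel a₂ b₂ → Cel a₃ b₃ → N ≤ 8 * (b₁ * b₂ * b₃) → b₁ * b₂ * b₃ ≤ 2 * N →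
    ∑ m ∈ T, ‖∑ z ∈ FF b₁ with a₁ < nn z, u₁ z * Ψ m z‖ ^ 2 * ‖∑ z ∈ FF b₂ with a₂ < nn z, u₂ z * Ψ m z‖ ^ 2 * ‖∑ z ∈ FF b₃ with a₃ < nn z, u₃ z * Ψ m z‖ ^ 2 ≤ W) →
  ∑ m ∈ T, ‖∑ z₁ ∈ FF b, ∑ z₂ ∈ FF b, ∑ z₃ ∈ FF b, if a < nn z₁ * nn z₂ * nn z₃ ∧ nn z₁ * nn z₂ * nn z₃ ≤ b then u₁ z₁ * u₂ z₂ * u₃ z₃ * (Ψ m z₁ * Ψ m z₂ * Ψ m z₃) else 0‖ ^ 2
    ≤ C * (P * (1 + Real.log N)) ^ 6 * W + C * V ^ 6 * (1 + Real.log N) ^ E * N * (N / √(P : ℝ) + √(N : ℝ))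

/-! ## The estimates -/

/-- **LRS** (medium, long; the long rough smooth variable).  From SMW, RSE, PR2, MVQ, SMT, UHX, FFC, SIZ.  `ε = η/50`.  RSE with `H n = nit t n [M < n ≤ M']` (`nit t (ab) = nit t a nit t b`).  (1) `nn w > x^ε`: the double sum has coefficients `F w v = mue w [..]`, `‖F‖ ≤ [n ≤ M', n has a smooth divisor > x^ε]`, `n = nn w nn v`: PR2 (`FF M' × FF M'`; `b v = 0` unless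
`nn v ≤ M'`), MVQ, SMT with `c = 8`: `≤ C M' · M'/L^(A+1)`.  (`mue`, the cuts and `nit` do not depend on `m`; put `nit t (nn v)` into `b`.)  (2) `nn w ≤ x^ε`: Minkowski (triangle inequality for `(∑_m |.|²)^(1/2)`): `≤ ∑_{w ∈ FF (x^ε)} (∑_m |∑_{v : M/a < nn v ≤ M'/a} Ψ_m v nit t (nn v)|²)^(1/2)`, `a = nn w`.
SMW with `M₀ = ⌊M/a⌋`, `M₀' = ⌊M'/a⌋ ≤ 2 M₀ + 1`, `η₁ = η - 3ε/2`, `χ = ξ` (`2η₁/5 ≥ 19η/50`); if `M₀' = 2M₀ + 1` split off the `v` with `nn v = 2M₀ + 1` (MVQ with `Q n = [n = 2M₀+1]`: `≤ C M₀ τ^2`, small).  (1) of SMW if `NPr` (UHX, second claim), (2) if `ξ` is principal (`ξ z = 1` for all coprime `z`): then `XInv` gives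
`e^(iα) = 1`, `α = 0`.  Total `≤ (∑_{w} (M/a) x^(-δ/2))² ≤ M² x^(-δ) (C L)^2` with `#{w : nn w = a} ≤ τ(a)²` or `∑_{w ∈ FF (x^ε)} 1/nn w ≤ C L`. -/
def LRS_stmt : Prop := ∀ η : ℝ, 0 < η → η ≤ 1 → ∀ A B C₀ : ℕ, 1 ≤ C₀ → ∃ x₀ : ℕ, ∀ x : ℕ, x₀ ≤ x → ∀ (q : ℕ) (ξ : ℤ × ℤ → ℂ) (i₁ i : ℕ) (α t Z : ℝ) (M M' M₁ : ℕ), Dta x q B ξ i₁ i α →
  Z ≤ Real.log x ^ C₀ → 1 ≤ M₁ → (M₁ : ℝ) ^ 2 * (x : ℝ) ^ η ≤ M → M ≤ M' → M' ≤ 2 * M → M' ≤ x ^ 4 → |t| ≤ (M₁ : ℝ) ^ 2 * (x : ℝ) ^ (19 * η / 50) →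
  ∀ T : Finset ℤ, T ⊆ Icc (-(M₁ : ℤ)) M₁ → (∀ m ∈ T, NPr q ξ ∨ m ≠ 0) →
  ∑ m ∈ T, ‖Sh (w1 Z) (HX ξ i₁ i (fr α m)) t M M'‖ ^ 2 ≤ (M : ℝ) ^ 2 / Real.log x ^ A

/-- **KRB** (medium; three cells).  From SUM, LRS, PMX, UHX, FFC.  `ε = η/60`.  `u₁ = u₂ = ct z₀ (wm Z)`, `u₃ = w1 Z`; the sum over the cell `(a₁, b₁]` of `ct z₀ (wm Z)` is `Sh (wm Z)` over `(a₁, min b₁ z₀]` (`0` if `z₀ ≤ a₁`).  Case `b₁ ≥ x^ε` (or `b₂`): SUM with exponent `A'`: `‖S₁‖ ≤ b₁/L^A'` (`|fr α m| ≤ 4M₁ ≤ x^2`, `|t| ≤ x^3`), and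
`∑_m ‖S₂ S₃‖² ≤ C (M₁ + b₂b₃) b₂ b₃ L^E` (PMX with `r = 2`, `V = 1`, `f k` = the weights cut to `(a_k, b_k]`, family `HX · nit`); `b₂ b₃ ≥ N/(8 b₁) ≥ N/(16 z₀) ≥ M₁` (here `a₁ < z₀`, `b₁ ≤ 2a₁`).  Total `≤ C (b₁b₂b₃)² L^(E-2A') ≤ N²/L^A`.
Case `b₁, b₂ < x^ε`: `b₃ ≥ N x^(-2ε)/8`, `b₃ ≤ 2a₃`, LRS for `(a₃, b₃]` with `η' = η - 3ε` (`19η'/50 ≥ η/3`), `‖S₁‖ ≤ 25 b₁`, `‖S₂‖ ≤ 25 b₂` (FFC). -/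
def KRB_stmt : Prop := ∀ η : ℝ, 0 < η → η ≤ 1 → ∀ A B C₀ : ℕ, 1 ≤ C₀ → ∃ x₀ : ℕ, ∀ x : ℕ, x₀ ≤ x → ∀ (q : ℕ) (ξ : ℤ × ℤ → ℂ) (i₁ i : ℕ) (α t Z : ℝ) (N M₁ z₀ : ℕ), Dta x q B ξ i₁ i α →
  8 ≤ Z → Z ≤ Real.log x ^ C₀ → 1 ≤ M₁ → (M₁ : ℝ) ^ 2 * (x : ℝ) ^ η ≤ N → N ≤ x ^ 2 → z₀ ^ 2 ≤ 9 * N → |t| ≤ (M₁ : ℝ) ^ 2 * (x : ℝ) ^ (η / 3) →
  ∀ T : Finset ℤ, T ⊆ Icc (-(M₁ : ℤ)) M₁ → (∀ m ∈ T, NPr q ξ ∨ m ≠ 0) →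
  ∀ a₁ b₁ a₂ b₂ a₃ b₃ : ℕ, Cel a₁ b₁ → Cel a₂ b₂ → Cel a₃ b₃ → N ≤ 8 * (b₁ * b₂ * b₃) → b₁ * b₂ * b₃ ≤ 2 * N →
  ∑ m ∈ T, ‖Sh (ct z₀ (wm Z)) (HX ξ i₁ i (fr α m)) t a₁ b₁‖ ^ 2 * ‖Sh (ct z₀ (wm Z)) (HX ξ i₁ i (fr α m)) t a₂ b₂‖ ^ 2 * ‖Sh (w1 Z) (HX ξ i₁ i (fr α m)) t a₃ b₃‖ ^ 2
    ≤ (N : ℝ) ^ 2 / Real.log x ^ A

/-- **KRG** (medium; the rough Möbius function).  From HBE, CSP, KRB, SUM, UHX.  The exceptional frequency (`ξ` principal, `m = 0`): SUM with exponent `A + 1`.  The others (`T`): HBE with `z₀ = ⌈√(2N)⌉` (`z₀² ≤ 9N`, `z₀ ≤ N ≤ a`), `H n = nit t n [a < n ≤ b]`, then CSP for the family `HX · nit t (nn)` (`FamX` with `c z = ξ z sgn^i nit t (nn z)` on `Fd`),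
`P = ⌈L^(2E + 2A + 10)⌉`, `V = 1`, `W` from KRB with a large exponent.  (`N ≥ x^η`, so `√N ≤ N/L^(..)`; `1 + log N ≤ 3L`.) -/
def KRG_stmt : Prop := ∀ η : ℝ, 0 < η → η ≤ 1 → ∀ A B C₀ : ℕ, 1 ≤ C₀ → ∃ x₀ : ℕ, ∀ x : ℕ, x₀ ≤ x → ∀ (q : ℕ) (ξ : ℤ × ℤ → ℂ) (i₁ i : ℕ) (α t Z : ℝ) (N a b M₁ : ℕ), Dta x q B ξ i₁ i α →
  8 ≤ Z → Z ≤ Real.log x ^ C₀ → 1 ≤ M₁ → (M₁ : ℝ) ^ 2 * (x : ℝ) ^ η ≤ N → N ≤ x ^ 2 → N ≤ a → a ≤ b → b ≤ 2 * N → |t| ≤ (M₁ : ℝ) ^ 2 * (x : ℝ) ^ (η / 3) →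
  ∑ m ∈ Icc (-(M₁ : ℤ)) M₁, ‖Sh (wm Z) (HX ξ i₁ i (fr α m)) t a b‖ ^ 2 ≤ (N : ℝ) ^ 2 / Real.log x ^ A

/-- **KCB** (medium; two cells).  From SUM, SUP, PMX, UHX, FFC.  Let the product of the first two sums be `S₁ S₂` (`S₁` = primes `≤ U`, `S₂` = rough Möbius `≤ V`), `S₃ = [a₃ = 0]` (`wu`), so `b₃ = 1` or everything is `0`.  If `U ≤ a₁` or `V ≤ a₂` everything is `0`; so `b₁ ≤ 2U` (or `b₁ = 1`: `S₁ = 0`), `b₂ ≥ N/(8b₁) ≥ x^δ/16`, and `b₁ ≥ x^δ/16`.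
If `b₁ ≤ b₂`: `b₂ ≥ √(N/8) ≥ M₁`; not exceptional `m`: SUP for `S₁` and PMX (`r = 1`) for `S₂`; if `b₂ < b₁`: SUM for `S₂`, PMX (`r = 1`, `V = 3L`) for `S₁`.  Exceptional `m = 0`: SUM for `S₂`, `‖S₁‖ ≤ 25 b₁ · 3L` (FFC). -/
def KCB_stmt : Prop := ∀ η δ : ℝ, 0 < η → η ≤ 1 → 0 < δ → ∀ A B C₀ : ℕ, 1 ≤ C₀ → ∃ x₀ : ℕ, ∀ x : ℕ, x₀ ≤ x → ∀ (q : ℕ) (ξ : ℤ × ℤ → ℂ) (i₁ i : ℕ) (α t Z : ℝ) (N M₁ U V : ℕ), Dta x q B ξ i₁ i α →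
  8 ≤ Z → Z ≤ Real.log x ^ C₀ → 1 ≤ M₁ → (M₁ : ℝ) ^ 2 * (x : ℝ) ^ η ≤ N → N ≤ x ^ 2 → (U : ℝ) * (x : ℝ) ^ δ ≤ N → (V : ℝ) * (x : ℝ) ^ δ ≤ N → |t| ≤ (M₁ : ℝ) ^ 2 * (x : ℝ) ^ (η / 3) →
  ∀ a₁ b₁ a₂ b₂ a₃ b₃ : ℕ, Cel a₁ b₁ → Cel a₂ b₂ → Cel a₃ b₃ → N ≤ 8 * (b₁ * b₂ * b₃) → b₁ * b₂ * b₃ ≤ 2 * N →
  ∑ m ∈ Icc (-(M₁ : ℤ)) M₁, ‖Sh (ct U (wl Z)) (HX ξ i₁ i (fr α m)) t a₁ b₁‖ ^ 2 * ‖Sh (ct V (wm Z)) (HX ξ i₁ i (fr α m)) t a₂ b₂‖ ^ 2 * ‖Sh wu (HX ξ i₁ i (fr α m)) t a₃ b₃‖ ^ 2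
    ≤ (N : ℝ) ^ 2 / Real.log x ^ A

open scoped Classical in
/-- **KCC** (medium; `cc` on the elements).  From PR2, DVE, DVU, SIZ, FDE, FDU.  `RgN Z n ↔ rgh Z n` for `n ≥ 1`; if `Z < p` for all primes `p ∣ n` and `n` is not squarefree then `p² ∣ n` with `p > Z`.  For squarefree `n`: `cc U V n = ∑_{p ∣ n, p ≤ U, n/p ≤ V} log p μ(n/p)`, every `z ∈ Fd` with `nn z = n` is primitive, and for each prime `p ∣ n` the pairs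
`(z₁, z₂)` of elements of `Fd` with `nn z₁ = p`, `nn z₂ = n/p` correspond to the `z ∈ Fd` with `nn z = n` (`z = u z₁ z₂`; DVE, DVU), `Ψ z = Ψ z₁ Ψ z₂`, `μ(nn z₂) = mue z₂` (`gcd = 1`).  `b` = the terms of the left side with `nn z` not squarefree, minus the double sum over the pairs with `nn z₁ nn z₂` not squarefree (PR2 with
`G n = log (2N) [p² ∣ n for some p > Z]`).  `|cc| ≤ log n`. -/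
def KCC_stmt : Prop := ∀ Z U V N₁ N N' : ℕ, 1 ≤ N → N ≤ N' → N' ≤ 2 * N → ∃ b : ℤ × ℤ → ℂ,
  (∀ v, ‖b v‖ ≤ 2 * Real.log (2 * N) * (#(nn v).divisors : ℝ) ^ 3) ∧ (∀ v, b v ≠ 0 → ∃ p : ℕ, p.Prime ∧ Z < p ∧ p ^ 2 ∣ nn v) ∧
  ∀ Ψ : ℤ × ℤ → ℂ, MU Ψ → ∑ z ∈ ZD N with nn z ≤ N', (bCc Z U V N₁ (nn z) : ℂ) * Ψ z =
    (∑ z₁ ∈ FF (2 * N), ∑ z₂ ∈ FF (2 * N), if max N N₁ < nn z₁ * nn z₂ ∧ nn z₁ * nn z₂ ≤ N' then ct U (wl Z) z₁ * ct V (wm Z) z₂ * (Ψ z₁ * Ψ z₂) else 0)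
      + ∑ v ∈ FF (2 * N), b v * Ψ v

/-- **KBM** (medium; the export).  From KRG, KCC, KCB, CSP, MVQ, SQT, UHX, SIZ.  Family `Ψ_m = HX · nit t (nn)`.  (1) `bMu`: for primitive `z` `mue z = μ(nn z)`, so the sum is `Sh (wm Z)` over `(max N N₁, N']` (`0` if `N' ≤ N₁`) minus the sum over the rough `z ∈ FF N'` with `gcd(z.1, z.2) > 1`: there `p² ∣ nn z` for a prime `p > Z`; MVQ (`V = 1`, `c = 0`), SQT: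
`≤ C N · N (4L)^E/Z`; `C₁ = A + E + 5`.  (2) `bCc`: KCC; the error `b`: MVQ (`V = 6L`, `c = 3`), SQT; the double sum is the triple sum of CSP with `u₃ = wu` (`FF` has exactly one element of norm `1`, `Ψ = 1` there), `a = max N N₁`, `b = N'` (empty if `N' ≤ N₁`), `V = 3L`, `W` from KCB, `P` = a power of `L`. -/
def KBM_stmt : Prop := ∀ η δ : ℝ, 0 < η → η ≤ 1 → 0 < δ → ∀ A B : ℕ, ∃ C₁ : ℕ, ∀ C₀ : ℕ, C₁ ≤ C₀ → ∃ x₀ : ℕ, ∀ x : ℕ, x₀ ≤ x → ∀ N M₁ Z N₁ : ℕ,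
  1 ≤ M₁ → (M₁ : ℝ) ^ 2 * (x : ℝ) ^ η ≤ N → N ≤ x ^ 2 → Real.log x ^ C₁ ≤ Z → (Z : ℝ) ≤ Real.log x ^ C₀ →
  KF x N M₁ B A ((M₁ : ℝ) ^ 2 * (x : ℝ) ^ (η / 3)) (bMu Z N₁) ∧
  ∀ U V : ℕ, (U : ℝ) * (x : ℝ) ^ δ ≤ N → (V : ℝ) * (x : ℝ) ^ δ ≤ N → KF x N M₁ B A ((M₁ : ℝ) ^ 2 * (x : ℝ) ^ (η / 3)) (bCc Z U V N₁)

end Pool.Agent.EU
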