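import Pool.Agent.helper52.EU.Defs
import Pool.Agent.helper36.BP.SpecE
import Pool.Agent.helper68.AM.Spec

/-!
# Project eu (MP_ad8ced_nt: almost all primes `p`), Spec W: the smooth variable, second moment over the frequencies

RULES.  File `Pool/Agent/<seat>/EU/XX.lean`:

  import Pool.Agent.helper52.EU.SpecW
  set_option autoImplicit false
  open Finset
  namespace Pool.Agent.EU
  open Pool.Agent.FI Pool.Agent.HK Pool.Agent.BP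
  open Pool.Agent.CH (nit)
  theorem XX (h1 : YY_stmt) ... : XX_stmt := ...
  end Pool.Agent.EU

Auxiliary lemmas prefixed `XX_` (private where possible).  Never change this file.  If a statement is wrong tell helper52 at once.  No `convert` / `congr!`, no straight double quotes, no sorry.

GEOMETRY.  `yy z = log (|a + l√8|/|a - l√8|)`, `|yy z| ≤ lep = log (3 + √8)` on `Fd`.  Two regions, `sg` = sign of `N8`: `sg = 1`: `z = (n, m)`, `4|m| < n`, `nn z = n² - 8m²`; `sg = -1`: `z = (m, n)`, `|m| < 2n`, `nn z = 8n² - m²`.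
`pz sg n m` = the element with outer coordinate `n`, inner coordinate `m`.  With `a = ra sg`, `b = rb sg` and `u = yy z`: `m = b n tanh (u/2)`, `nn z = a n² - (a/b²) m² = a n²/cosh² (u/2)`, `1 ≤ cosh² (u/2) ≤ 2`; `b/a = 1/√8` in both cases.  The inner coordinate runs through a row `RowS` of length `≈ b n h/2`.
`nit t v = v^(it)`; the phase `(t/2π) log (nn z)` has the derivative `-(t/(2π b n)) sinh u` in `m`.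
-/

set_option autoImplicit false

open Finset

noncomputable section

namespace Pool.Agent.EU

open Pool.Agent.FI Pool.Agent.HK Pool.Agent.BP
open Pool.Agent.CH (nit)

/-- leading coefficient of the norm form in the outer coordinate -/
def ra (sg : ℤ) : ℝ := if sg = 1 then 1 else 8

/-- scale of the inner coordinate -/
def rb (sg : ℤ) : ℝ := if sg = 1 then 1 / √8 else √8

/-- the element with outer coordinate `n` and inner coordinate `m` -/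
def pz (sg n m : ℤ) : ℤ × ℤ := if sg = 1 then (n, m) else (m, n)

/-- the outer coordinate -/
def co (sg : ℤ) (c : ℤ × ℤ) : ℤ := if sg = 1 then c.1 else c.2

open scoped Classical in
/-- the row `n` of a window -/
def RowS (M M' q : ℕ) (c : ℤ × ℤ) (sg : ℤ) (y h : ℝ) (n : ℤ) : Finset ℤ :=
  {m ∈ Icc (-(2 * n)) (2 * n) | rb sg * n * Real.tanh (y / 2) < m ∧ (m : ℝ) ≤ rb sg * n * Real.tanh ((y + h) / 2) ∧
    M < nn (pz sg n m) ∧ nn (pz sg n m) ≤ M' ∧ (q : ℤ) ∣ (pz sg n m).1 - c.1 ∧ (q : ℤ) ∣ (pz sg n m).2 - c.2}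

open scoped Classical in
/-- the smooth sum over a window -/
def WF (M M' q : ℕ) (c : ℤ × ℤ) (sg : ℤ) (y h t : ℝ) : ℂ :=
  ∑ z ∈ FF M' with (M < nn z ∧ (q : ℤ) ∣ z.1 - c.1 ∧ (q : ℤ) ∣ z.2 - c.2 ∧ (N8 z).sign = sg ∧ y < yy z ∧ yy z ≤ y + h), nit t (nn z)

open scoped Classical in
/-- the density of the row `n` at the angle `u` -/
def gI (sg : ℤ) (M M' : ℕ) (t : ℝ) (n : ℤ) (u : ℝ) : ℂ :=
  if (M : ℝ) < ra sg * n ^ 2 / Real.cosh (u / 2) ^ 2 ∧ ra sg * n ^ 2 / Real.cosh (u / 2) ^ 2 ≤ M' then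
    nit t (ra sg * n ^ 2 / Real.cosh (u / 2) ^ 2) * ((rb sg * n / (2 * Real.cosh (u / 2) ^ 2) : ℝ) : ℂ) else 0

/-- the main term -/
def rhoT (M M' : ℕ) (t : ℝ) : ℂ :=
  (((M' : ℝ) : ℂ) ^ (1 + t * Complex.I) - ((M : ℝ) : ℂ) ^ (1 + t * Complex.I)) / (((4 * √8 : ℝ) : ℂ) * (1 + t * Complex.I))

/-- **WRZ** (medium; the rows).  From SIZ.  (1) For `z ∈ Fd` with `(N8 z).sign = 1`: `4|z.2| < z.1` (if `|z.1| < 2 z.2` then `N8 z < 0`), similarly for `-1`; `z = pz sg n m`, `yy z = 2 artanh (m/(b n))` (or: `exp (yy z) = (b n + m)/(b n - m)`, `tanh (u/2) = (e^u - 1)/(e^u + 1)`, strictly monotone), so `y < yy z ≤ y + h` iff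
`b n tanh (y/2) < m ≤ b n tanh ((y+h)/2)`.  `tanh (lep/2) = 1/√2`: `b n/√2 = 2n` for `sg = -1`, `n/4` for `sg = 1`; for the rows with `y + h = lep` the end point `m = 2n`, resp. `n = 4m`, is excluded since `z.1` is odd (`q` even, `c.1` odd).  (2) immediate.  (3) `cosh² (u/2) ≤ cosh² (lep/2) = 2`.
(4) the interval has length `b n (tanh ((y+h)/2) - tanh (y/2)) ≤ √8 n h/2`. -/
def WRZ_stmt : Prop := ∀ (M M' q : ℕ) (c : ℤ × ℤ) (sg : ℤ) (y h : ℝ), (sg = 1 ∨ sg = -1) → -lep ≤ y → 0 ≤ h → y + h ≤ lep →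
  (∀ t : ℝ, 2 ∣ q → 1 ≤ q → c.1 % 2 = 1 →
    WF M M' q c sg y h t = ∑ n ∈ Icc (1 : ℤ) (2 * M'), ∑ m ∈ RowS M M' q c sg y h n, nit t (nn (pz sg n m))) ∧
  ∀ n : ℤ, 1 ≤ n → (∀ m ∈ RowS M M' q c sg y h n, (nn (pz sg n m) : ℝ) = ra sg * n ^ 2 - ra sg / rb sg ^ 2 * m ^ 2) ∧
    ((RowS M M' q c sg y h n).Nonempty → (M : ℝ) < ra sg * n ^ 2 ∧ ra sg * n ^ 2 ≤ 2 * M') ∧
    (#(RowS M M' q c sg y h n) : ℝ) ≤ 2 * n * h + 1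

/-- **WKL** (medium; Kusmin-Landau in a row).  From `AM.KL_stmt` (proved: Pool/Agent/helper63/AM/KL.lean), WRZ.  `0 ≤ y`: `m > 0`, the norm is decreasing in `m`, so the row is `m₀, m₀ + q, ..` (consecutive).  `φ m = (t/2π) log (a n² - (a/b²) m²)`, `t > 0` (otherwise conjugate; `t = 0` is impossible because of `θ > 0`): concave, and by the mean value theorem
`φ m - φ (m+q) = q t sinh u/(2π b n)` for some `u ∈ (y, y+h]` (`m' = b n tanh (u/2)` between `m` and `m + q`), so it lies in `[k + θ, k + 1 - θ]`, and it increases with `m`.  KL for `x j = φ (m₀ + j q) + (k+1) j` (increments in `[θ, 1 - θ]`, decreasing; `ee` does not change).  `y + h ≤ 0`: `m ≤ 0`, `φ (m+q) - φ m ∈ [k+θ, k+1-θ]`,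
decreasing: KL for `φ (m₀ + jq) - k j`. -/
def WKL_stmt : Prop := ∀ (M M' q : ℕ) (c : ℤ × ℤ) (sg : ℤ) (y h t θ lo hi : ℝ) (n : ℤ) (k : ℕ), (sg = 1 ∨ sg = -1) → 1 ≤ q → 1 ≤ n →
  -lep ≤ y → 0 ≤ h → y + h ≤ lep → (0 ≤ y ∨ y + h ≤ 0) → (∀ u : ℝ, y ≤ u → u ≤ y + h → lo ≤ |Real.sinh u| ∧ |Real.sinh u| ≤ hi) → 0 < θ → θ ≤ 1 / 2 →
  k + θ ≤ q * |t| * lo / (2 * Real.pi * rb sg * n) → q * |t| * hi / (2 * Real.pi * rb sg * n) ≤ k + 1 - θ →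
  ‖∑ m ∈ RowS M M' q c sg y h n, nit t (nn (pz sg n m))‖ ≤ 1 / θ

open scoped Classical in
/-- **WBC** (medium; the bad rows).  Pure counting.  If `n` is in the set then there is an integer `k ≥ 1` with `τ/n - θ < k < τ'/n + θ`: with `k₀ = ⌊τ/n⌋` either `τ/n < k₀ + θ` (then `k₀ ≥ 1`, since `k₀ = 0` would give `τ'/n ≤ τ/n + θ < 1/4`; `k = k₀`) or `τ'/n > k₀ + 1 - θ` (`k = k₀ + 1`).
For given `k`: `τ/(k+θ) < n < τ'/(k-θ)`, an interval of length `≤ 2(τ'-τ)/k + 4θτ/k² ≤ 2θ n₁/k + 4θτ/k²`.  With `T = τ/n₁`: `T/4 - 1/8 < k < T + 1/4` (`τ' ≤ τ + n₁/8`).  `T ≥ 8`: `k ≥ T/8`, at most `2T` values: `∑ 1/k ≤ 16`, `∑ τ/k² ≤ 128 n₁`.  `T < 8`: at most `9` values of `k ≥ 1`. -/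
def WBC_stmt : Prop := ∃ C : ℝ, 0 < C ∧ ∀ (n₁ : ℕ) (τ τ' θ : ℝ), 1 ≤ n₁ → 0 ≤ τ → τ ≤ τ' → 0 < θ → θ ≤ 1 / 8 → τ' - τ ≤ θ * n₁ →
  (((Ioc (n₁ : ℤ) (4 * (n₁ : ℤ))).filter fun n : ℤ => (1 / 2 : ℝ) < τ' / (n : ℝ) ∧ ¬ ∃ k : ℕ, (k : ℝ) + θ ≤ τ / (n : ℝ) ∧ τ' / (n : ℝ) ≤ (k : ℝ) + 1 - θ).card : ℝ) ≤ C * (θ * n₁ + τ' / n₁ + 1)

/-- **WLT** (medium; large `t`).  From WRZ, WKL, WBC.  `lo = min |sinh|`, `hi = max |sinh|` on `[y, y+h]` (monotone; `hi - lo ≤ 3h`, `hi ≤ 3`), `τ = q |t| lo/(2π b)`, `τ' = q |t| hi/(2π b)`, `θ = x^(-η/40)`, `n₁ = ⌊√(M/a)⌋` (the nonempty rows have `M < a n² ≤ 4M`, so `n₁ < n ≤ 4 n₁`).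
`√M h ≥ x^(η/2)`.  `τ' - τ ≤ C q |t| h ≤ C q x^(9η/20)/h ≤ C q x^(-η/20) √M ≤ θ n₁`.  Rows with `τ'/n ≤ 1/2`: WKL with `k = 0`, `θ' = τ/n`: at most `n/τ`, in total `C M/(q |t| lo) ≤ C M h x^(-η/100+η/200)`.  Rows with a `k`: WKL, at most `1/θ`, in total `4 n₁ x^(η/40) ≤ C M h x^(-η/4)`.
The other rows: WBC, at most `C (θ n₁ + τ'/n₁ + 1)` rows, each with at most `C √M h` elements (WRZ (4)); `τ'/n₁ ≤ C q x^(9η/20)/(h² √M) ≤ C q x^(-η/20)/h ≤ θ n₁`. -/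
def WLT_stmt : Prop := ∀ η : ℝ, 0 < η → η ≤ 1 → ∃ x₀ : ℕ, ∀ x : ℕ, x₀ ≤ x → ∀ (M M' q : ℕ) (c : ℤ × ℤ) (sg : ℤ) (y h t : ℝ), (sg = 1 ∨ sg = -1) →
  2 ∣ q → 1 ≤ q → (q : ℝ) ≤ (x : ℝ) ^ (η / 400) → c.1 % 2 = 1 → -lep ≤ y → 0 < h → h ≤ 1 → y + h ≤ lep → (0 ≤ y ∨ y + h ≤ 0) → M ≤ M' → M' ≤ 2 * M →
  (x : ℝ) ^ η ≤ M * h ^ 2 → |t| ≤ (x : ℝ) ^ (9 * η / 20) / h ^ 2 → (x : ℝ) ^ (η / 100) ≤ |t| * h →
  (∀ u : ℝ, y ≤ u → u ≤ y + h → (x : ℝ) ^ (-(η / 200)) ≤ |Real.sinh u|) →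
  ‖WF M M' q c sg y h t‖ ≤ M * h * (x : ℝ) ^ (-(η / 400))

/-- **WRI** (medium, long; one row and its integral).  From WRZ.  `F(m) = nit t (a n² - (a/b²) m²)` on the `m` of the (real) interval with `M < norm ≤ M'`: at most two intervals (the norm is increasing for `m ≤ 0`, decreasing for `m ≥ 0`); on each of them `|∑_{m ≡ c} F(m) - (1/q) ∫ F| ≤ 2 + ∫ |F'|` (compare each integral over `[m, m+q]` with `q F(m)`),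
`|F'| ≤ |t| |sinh u|/(b n)`, the length in `m` is `≤ √8 n h/2`: total `C (1 + |t| h)`.  Change of variables `m = b n tanh (u/2)`, `dm = b n/(2 cosh² (u/2)) du`, norm `= a n²/cosh² (u/2)` (`MeasureTheory.integral_image_eq_integral_abs_deriv_smul` on the set of the `u` with the norm condition, or on the two intervals). -/
def WRI_stmt : Prop := ∃ C : ℝ, 0 < C ∧ ∀ (M M' q : ℕ) (c : ℤ × ℤ) (sg : ℤ) (y h t : ℝ) (n : ℤ), (sg = 1 ∨ sg = -1) → 1 ≤ q → 1 ≤ n →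
  -lep ≤ y → 0 ≤ h → y + h ≤ lep → 1 ≤ M → M ≤ M' → (q : ℤ) ∣ n - co sg c →
  ‖∑ m ∈ RowS M M' q c sg y h n, nit t (nn (pz sg n m)) - 1 / (q : ℂ) * ∫ u in y..(y + h), gI sg M M' t n u‖ ≤ C * (1 + |t| * h)

open scoped Classical in
/-- **WNI** (medium; the sum over the rows).  `G(v) = nit t (a v²/cosh²) b v/(2 cosh²)` for real `v` in the interval `(√(M/a) cosh, √(M'/a) cosh]`, `cosh = cosh (u/2) ∈ [1, √2]`: `|∑_{n ≡ c₀} G(n) - (1/q) ∫ G| ≤ 2 sup |G| + ∫ |G'| ≤ C (1 + |t|) √M'`; `G(v) = const · v^(1+2it)` has the primitive `const · v^(2+2it)/(2+2it)`,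
`∫ G = (b/(4a)) (M'^(1+it) - M^(1+it))/(1+it) = rhoT`, `b/(4a) = 1/(4√8)`.  (`n ≤ √(2M') ≤ 2M'` if `gI ≠ 0`.) -/
def WNI_stmt : Prop := ∃ C : ℝ, 0 < C ∧ ∀ (M M' q : ℕ) (c₀ sg : ℤ) (t u : ℝ), (sg = 1 ∨ sg = -1) → 1 ≤ q → 1 ≤ M → M ≤ M' → |u| ≤ lep →
  ‖∑ n ∈ Icc (1 : ℤ) (2 * M') with (q : ℤ) ∣ n - c₀, gI sg M M' t n u - 1 / (q : ℂ) * rhoT M M' t‖ ≤ C * (1 + |t|) * √(M' : ℝ)

/-- **WST** (short, medium; small `t`).  From WRZ, WRI, WNI.  `WF = ∑_n ∑_(RowS n)`; only `n ≤ √(2M')` matter (for larger `n` both the row and `gI` vanish), the row is empty if `n` is not `≡ co sg c mod q`.  Exchange the sum over `n` and the integral over `u`.  `h (1 + |t|) ≤ 5 (1 + |t| h)` as `h ≤ 2 lep ≤ 4`. -/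
def WST_stmt : Prop := ∃ C : ℝ, 0 < C ∧ ∀ (M M' q : ℕ) (c : ℤ × ℤ) (sg : ℤ) (y h t : ℝ), (sg = 1 ∨ sg = -1) → 2 ∣ q → 1 ≤ q → c.1 % 2 = 1 →
  -lep ≤ y → 0 ≤ h → y + h ≤ lep → 1 ≤ M → M ≤ M' →
  ‖WF M M' q c sg y h t - (h / (q : ℝ) ^ 2 : ℝ) * rhoT M M' t‖ ≤ C * √(M' : ℝ) * (1 + |t| * h)

open scoped Classical in
/-- **WBE** (medium; Bessel and Gallagher).  `e_m(u) = exp(-i fr α m u)` are orthogonal on `[-lep, lep]` with norm² `2 lep` (`fr α m - fr α m' = π (m - m')/lep`), so by Bessel (expand `∫ ‖G - ∑ c_m e_m‖² ≥ 0`) `∑_m ‖∫ G conj e_m‖² ≤ 2 lep ∫ ‖G‖²` for bounded measurable `G`.  (1) `G(u) = ∑_{p : u < Y p ≤ u + h} b p - ρ`: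
`∫_{Y-h}^{Y} exp(-iκu) du = exp(-iκY) ∫_0^h exp(iκu) du`.  (2) `G(u) = ∑_{p : Y p ≤ u < Y p + h} b p`.  (3) `|∫_0^h exp(iκu) du| = |2 sin (κh/2)/κ| ≥ (2/π) h`. -/
def WBE_stmt : Prop := (∀ (ι : Type) (P : Finset ι) (Y : ι → ℝ) (b : ι → ℂ) (h : ℝ) (ρ : ℂ) (α : ℝ) (F : Finset ℤ), 0 < h →
    (∀ p ∈ P, -lep + h ≤ Y p ∧ Y p ≤ lep) →
    ∑ m ∈ F, ‖(∑ p ∈ P, b p * Complex.exp (-((fr α m * Y p : ℝ) : ℂ) * Complex.I)) * (∫ u in (0 : ℝ)..h, Complex.exp (((fr α m * u : ℝ) : ℂ) * Complex.I)) -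
        ρ * ∫ u in (-lep)..lep, Complex.exp (-((fr α m * u : ℝ) : ℂ) * Complex.I)‖ ^ 2
      ≤ 2 * lep * ∫ u in (-lep)..lep, ‖∑ p ∈ P with (u < Y p ∧ Y p ≤ u + h), b p - ρ‖ ^ 2) ∧
  (∀ (ι : Type) (P : Finset ι) (Y : ι → ℝ) (b : ι → ℂ) (h : ℝ) (α : ℝ) (F : Finset ℤ), 0 < h →
    (∀ p ∈ P, -lep ≤ Y p ∧ Y p ≤ lep - h) →
    ∑ m ∈ F, ‖(∑ p ∈ P, b p * Complex.exp (-((fr α m * Y p : ℝ) : ℂ) * Complex.I)) * (∫ u in (0 : ℝ)..h, Complex.exp (-((fr α m * u : ℝ) : ℂ) * Complex.I))‖ ^ 2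
      ≤ 2 * lep * ∫ u in (-lep)..lep, ‖∑ p ∈ P with (Y p ≤ u ∧ u < Y p + h), b p‖ ^ 2) ∧
  ∀ κ h : ℝ, 0 < h → |κ| * h ≤ Real.pi → 2 / Real.pi * h ≤ ‖∫ u in (0 : ℝ)..h, Complex.exp (((κ * u : ℝ) : ℂ) * Complex.I)‖ ∧
    2 / Real.pi * h ≤ ‖∫ u in (0 : ℝ)..h, Complex.exp (-((κ * u : ℝ) : ℂ) * Complex.I)‖

open scoped Classical in
/-- **WAC** (medium, long; one class).  From WLT, WST, WBE, SCW (of BP), YYB.  `K₂ = max K ⌈x^(η/40)⌉`, `h = 1/(2 K₂)`, `η' = 9η/10`: `M h² ≥ x^(η')`, `|t| ≤ K² x^(2η/5) ≤ x^(9η'/20)/h²`; enlarge the sum to `|m| ≤ K₂`; `|fr α m| h ≤ π` (`0 ≤ α ≤ 2π`, `lep > 1.7`).  Use WBE with `-fr α m = fr (-α) (-m)` (or conjugate everything).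
`S(m) = S_in + S_edge`, `S_edge` = the `z` with `yy z < -lep + h`: by WBE (2), (3) and the count SCW (a window of length `h` has at most `C (M h + √M) ≤ C M h` elements) `∑ ‖S_edge‖² ≤ C h^(-2) h (M h)² = C M² h`.  `S_in`: WBE (1) with `ρ = (h/q²) rhoT`: for `u ∈ [-lep + h, lep - h]` the inner sum is `WF M M' q c sg u h t`.
If `|t| h < x^(η'/100)`: WST, `‖WF - ρ‖ ≤ C √M x^(η'/100) ≤ M h x^(-η'/4)`.  If `|t| h ≥ x^(η'/100)`: `|ρ| ≤ C h M/(1 + |t|)`, and WLT for the `u` such that `|sinh| ≥ x^(-η'/200)` on `[u, u+h]`; the other `u` have measure `≤ C (x^(-η'/200) + h)`, there `‖WF - ρ‖ ≤ C M h`; the same for the `u` within `h` of `± lep`.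
So `∑_m ‖S_in(m) J(m) - ρ ∫ e‖² ≤ C M² h² x^(-δ')`, `|J(m)| ≥ 2h/π`; `G m = ρ ∫ e/J(m)`, which does not depend on `c`, and `∫_{-lep}^{lep} exp(iκu) du = 0` for `κ = fr 0 m`, `m ≠ 0`. -/
def WAC_stmt : Prop := ∀ η : ℝ, 0 < η → η ≤ 1 → ∃ δ : ℝ, 0 < δ ∧ ∃ x₀ : ℕ, ∀ x : ℕ, x₀ ≤ x → ∀ (K M M' q : ℕ) (sg : ℤ) (t α : ℝ), (sg = 1 ∨ sg = -1) →
  1 ≤ K → (K : ℝ) ^ 2 * (x : ℝ) ^ η ≤ M → M ≤ M' → M' ≤ 2 * M → 2 ∣ q → 1 ≤ q → (q : ℝ) ≤ (x : ℝ) ^ δ → |t| ≤ (K : ℝ) ^ 2 * (x : ℝ) ^ (2 * η / 5) →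
  0 ≤ α → α ≤ 2 * Real.pi → ∃ G : ℤ → ℂ, (α = 0 → ∀ m, m ≠ 0 → G m = 0) ∧ ∀ c : ℤ × ℤ, c.1 % 2 = 1 →
  ∑ m ∈ Icc (-(K : ℤ)) K, ‖∑ z ∈ FF M' with (M < nn z ∧ (q : ℤ) ∣ z.1 - c.1 ∧ (q : ℤ) ∣ z.2 - c.2 ∧ (N8 z).sign = sg),
      Complex.exp (((fr α m * yy z : ℝ) : ℂ) * Complex.I) * nit t (nn z) - G m‖ ^ 2 ≤ (M : ℝ) ^ 2 * (x : ℝ) ^ (-δ)

open scoped Classical in
/-- **SMW** (short, medium; the smooth variable).  From WAC (with the modulus `2q`).  Sort the `z` by the classes `c` modulo `2q` with `c.1` odd and by the sign: the inner sum is `∑_c χ(c) (S_{c,1}(m) + (-1)^i S_{c,-1}(m))` (`FF` has odd `z.1`, `N8 z ≠ 0`).  Subtract `∑_c χ(c) (G_1 m + (-1)^i G_{-1} m)`, which is `0` in (1) (`∑_c χ(c) = 0`) and in (2)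
(`G = 0`).  Cauchy-Schwarz over at most `8q²` pairs `(c, sg)`; `δ` small. -/
def SMW_stmt : Prop := ∀ η : ℝ, 0 < η → η ≤ 1 → ∃ δ : ℝ, 0 < δ ∧ ∃ x₀ : ℕ, ∀ x : ℕ, x₀ ≤ x → ∀ (K M M' q i : ℕ) (t α : ℝ) (χ : ℤ × ℤ → ℂ),
  1 ≤ K → (K : ℝ) ^ 2 * (x : ℝ) ^ η ≤ M → M ≤ M' → M' ≤ 2 * M → 1 ≤ q → (q : ℝ) ≤ (x : ℝ) ^ δ → |t| ≤ (K : ℝ) ^ 2 * (x : ℝ) ^ (2 * η / 5) →
  0 ≤ α → α ≤ 2 * Real.pi → (∀ z, ‖χ z‖ ≤ 1) → (∀ z w : ℤ × ℤ, (q : ℤ) ∣ z.1 - w.1 → (q : ℤ) ∣ z.2 - w.2 → χ z = χ w) →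
  (∑ v ∈ range (2 * q) ×ˢ range (2 * q) with v.1 % 2 = 1, χ ((v.1 : ℤ), (v.2 : ℤ)) = 0 →
    ∑ m ∈ Icc (-(K : ℤ)) K, ‖∑ z ∈ FF M' with M < nn z, χ z * ((N8 z).sign : ℂ) ^ i * Complex.exp (((fr α m * yy z : ℝ) : ℂ) * Complex.I) * nit t (nn z)‖ ^ 2
      ≤ (M : ℝ) ^ 2 * (x : ℝ) ^ (-δ)) ∧
  (α = 0 →
    ∑ m ∈ Icc (-(K : ℤ)) K with m ≠ 0, ‖∑ z ∈ FF M' with M < nn z, χ z * ((N8 z).sign : ℂ) ^ i * Complex.exp (((fr α m * yy z : ℝ) : ℂ) * Complex.I) * nit t (nn z)‖ ^ 2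
      ≤ (M : ℝ) ^ 2 * (x : ℝ) ^ (-δ))

end Pool.Agent.EU
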