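import Pool.Agent.helper52.EU.SpecW
import Pool.Agent.helper28.EU.Defs
import Pool.Agent.helper36.YB.Defs

/-!
# Project eu (MP_ad8ced_nt: almost all primes `p`), Spec Y: windows and frequencies, mean values, divisor sums (general tools of block Y)

RULES.  File `Pool/Agent/<seat>/EU/XX.lean`:

  import Pool.Agent.helper52.EU.SpecY
  set_option autoImplicit false
  open Finset
  namespace Pool.Agent.EU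
  open Pool.Agent.FI Pool.Agent.HK Pool.Agent.BP Pool.Agent.YB
  open Pool.Agent.CH (nit)
  theorem XX (h1 : YY_stmt) ... : XX_stmt := ...
  end Pool.Agent.EU

Auxiliary lemmas prefixed `XX_` (private where possible).  Never change this file.  If a statement is wrong tell helper52 at once.  No `convert` / `congr!`, no straight double quotes, no sorry.

`fr α m = (α + 2πm)/(2 lep)`, `lep = log (3 + √8) ∈ (1.7, 1.8)`; `|yy z| ≤ lep` on `Fd`.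
-/

set_option autoImplicit false

open Finset

noncomputable section

namespace Pool.Agent.EU

open Pool.Agent.FI Pool.Agent.HK Pool.Agent.BP Pool.Agent.YB
open Pool.Agent.CH (nit)

/-- a family of characters with the frequencies `fr α m` -/
def FamX (α : ℝ) (Ψ : ℤ → ℤ × ℤ → ℂ) (c : ℤ × ℤ → ℂ) : Prop :=
  (∀ m, MU (Ψ m)) ∧ (∀ z, ‖c z‖ ≤ 1) ∧ ∀ (m : ℤ) (z : ℤ × ℤ), Fd z → Ψ m z = c z * Complex.exp (((fr α m * yy z : ℝ) : ℂ) * Complex.I)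

open scoped Classical in
/-- **FRQ** (medium; from windows to frequencies).  `G(y) = ∑_{z ∈ S : y < yy z ≤ y + h} f z` vanishes outside `[-lep - h, lep]`, `∫_ℝ G(y) exp(iκy) dy = P(κ) ∫_0^h exp(-iκv) dv`, `P(κ) = ∑ f z exp(iκ yy z)` (each `z` contributes the `y ∈ [yy z - h, yy z)`).  Split the support in two intervals of length at most `2 lep`, Bessel on each
(`exp(i fr α m y)` are orthogonal on every interval of length `2 lep`; compare row WBE), and `|∫_0^h| = |2 sin (κh/2)/κ| ≥ (2/π) h` for `|κ| h ≤ π`; `|fr α m| ≤ (2π + 2π M₁)/(2 lep) ≤ 4 M₁`. -/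
def FRQ_stmt : Prop := ∃ C : ℝ, 0 < C ∧ ∀ (S : Finset (ℤ × ℤ)) (f : ℤ × ℤ → ℂ) (α h : ℝ) (M₁ : ℕ), (∀ z ∈ S, |yy z| ≤ lep) → 0 ≤ α → α ≤ 2 * Real.pi →
  1 ≤ M₁ → 0 < h → h * M₁ ≤ 1 / 4 →
  ∑ m ∈ Icc (-(M₁ : ℤ)) M₁, ‖∑ z ∈ S, f z * Complex.exp (((fr α m * yy z : ℝ) : ℂ) * Complex.I)‖ ^ 2
    ≤ C / h ^ 2 * ∫ y : ℝ, ‖∑ z ∈ S with (y < yy z ∧ yy z ≤ y + h), f z‖ ^ 2

/-- **MV2** (short, medium; mean values).  From FRQ (`h = 1/(4M₁)`), SCW (of BP), YYB.  Cauchy-Schwarz in the window: at most `C (h N + √N)` elements of `FF N` in a window of length `h`; `∫ ∑_{window} ‖b z‖² dy = h ∑ ‖b z‖²`. -/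
def MV2_stmt : Prop := ∃ C : ℝ, 0 < C ∧ ∀ (N M₁ : ℕ) (α : ℝ) (b : ℤ × ℤ → ℂ), 1 ≤ N → 1 ≤ M₁ → 0 ≤ α → α ≤ 2 * Real.pi →
  ∑ m ∈ Icc (-(M₁ : ℤ)) M₁, ‖∑ z ∈ FF N, b z * Complex.exp (((fr α m * yy z : ℝ) : ℂ) * Complex.I)‖ ^ 2
    ≤ C * (N + M₁ * √(N : ℝ)) * ∑ z ∈ FF N, ‖b z‖ ^ 2

open scoped Classical in
/-- **PWF** (medium, long; from frequencies to windows).  The function `g(y) = ∑_z f z ([yy z - h ≤ y < yy z] + e^(-iα) [yy z - h + 2lep ≤ y])` on `[-lep, lep)` (the part of the window below `-lep` is moved by `2 lep`) satisfies `∫_{-lep}^{lep} g(y) exp(-i(-fr α m)..)`: up to the sign of `κ` its Fourier coefficients are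
`P(κ) ∫_0^h exp(∓iκv) dv`, `κ = fr α m` (`exp(2 i κ lep) = e^(iα)`).  Parseval for `g(y) e^(i c y)` (periodic of period `2 lep`; Mathlib `tsum_sq_fourierCoeff` on `AddCircle (2 lep)`, or `fourierCoeffOn`): `∫ ‖g‖² = (1/(2 lep)) ∑_m ‖P(fr α m)‖² |∫_0^h|²`, `|∫_0^h| ≤ min (h, 2/|κ|)`, `|fr α m| ≥ |m|/2` for `|m| ≥ 2`.
The frequencies `|m| > M₁` in dyadic blocks `2^k M₁ < |m| ≤ 2^(k+1) M₁`: at most `16 (2^(k+1) M₁ U + V₀)/(2^k M₁)²`, in total `C (U/M₁ + V₀/M₁²)`.  For `-lep ≤ y ≤ lep - h` `g(y) = W(y)`; the other `y ∈ [-lep - h, lep]` have measure `≤ 2h` and `‖W‖ ≤ W₀`. -/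
def PWF_stmt : Prop := ∃ C : ℝ, 0 < C ∧ ∀ (S : Finset (ℤ × ℤ)) (f : ℤ × ℤ → ℂ) (α h U V₀ W₀ : ℝ) (M₁ : ℕ), (∀ z ∈ S, |yy z| ≤ lep) → 0 ≤ α → α ≤ 2 * Real.pi →
  2 ≤ M₁ → 0 < h → h ≤ 1 → 0 ≤ U → 0 ≤ V₀ → 0 ≤ W₀ →
  (∀ M : ℕ, M₁ ≤ M → ∑ m ∈ Icc (-(M : ℤ)) M, ‖∑ z ∈ S, f z * Complex.exp (((fr α m * yy z : ℝ) : ℂ) * Complex.I)‖ ^ 2 ≤ M * U + V₀) →
  (∀ y : ℝ, ‖∑ z ∈ S with (y < yy z ∧ yy z ≤ y + h), f z‖ ≤ W₀) →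
  ∫ y : ℝ, ‖∑ z ∈ S with (y < yy z ∧ yy z ≤ y + h), f z‖ ^ 2 ≤
    C * (h ^ 2 * ∑ m ∈ Icc (-(M₁ : ℤ)) M₁, ‖∑ z ∈ S, f z * Complex.exp (((fr α m * yy z : ℝ) : ℂ) * Complex.I)‖ ^ 2 + U / M₁ + V₀ / M₁ ^ 2 + h * W₀ ^ 2)

open scoped Classical in
/-- **WSP** (short; windows of windows).  `W_h(y) = ∑_{j < J} W_(h/J)(y + jh/J)`, Cauchy-Schwarz, translation invariance of the integral (all functions are finite sums of indicators, integrable). -/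
def WSP_stmt : Prop := ∀ (S : Finset (ℤ × ℤ)) (f : ℤ × ℤ → ℂ) (h : ℝ) (J : ℕ), 0 < h → 1 ≤ J →
  ∫ y : ℝ, ‖∑ z ∈ S with (y < yy z ∧ yy z ≤ y + h), f z‖ ^ 2 ≤ (J : ℝ) ^ 2 * ∫ y : ℝ, ‖∑ z ∈ S with (y < yy z ∧ yy z ≤ y + h / J), f z‖ ^ 2

/-- **PMX** (medium; mean values of products).  From PRC, MVH (of BP).  PRC for `Ψ m` (`b` does not depend on `m`), then MVH with `c = 3r` and the coefficients `b v * c v` (`v ∈ FF`, so `Fd v`).  Compare Pool/Agent/helper72/BP/PF3.lean. -/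
def PMX_stmt : Prop := ∀ r : ℕ, ∃ (C : ℝ) (E : ℕ), 0 < C ∧ ∀ (α : ℝ) (Ψ : ℤ → ℤ × ℤ → ℂ) (c : ℤ × ℤ → ℂ), FamX α Ψ c →
  ∀ (M₁ : ℕ) (V : ℝ) (f : Fin r → ℤ × ℤ → ℂ) (N : Fin r → ℕ), 1 ≤ M₁ → 1 ≤ V → (∀ k z, ‖f k z‖ ≤ V) → (∀ k, 1 ≤ N k) →
  ∑ m ∈ Icc (-(M₁ : ℤ)) M₁, ∏ k, ‖∑ z ∈ FF (N k), f k z * Ψ m z‖ ^ 2 ≤
    C * V ^ (2 * r) * (M₁ + ∏ k, (N k : ℝ)) * (∏ k, (N k : ℝ)) * (1 + Real.log (∏ k, (N k : ℝ))) ^ E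

/-- **PR2** (short, medium; double sums).  From FDE, FDU, CN2, SIZ.  As PRC (Pool/Agent/helper36/BP/PRC.lean): `b v = ∑ F z w` over the pairs `z ∈ FF M`, `w ∈ FF N` with `v = u (z w)`, `u` a unit; at most `τ(nn v)³` pairs, `nn v = nn z nn w`.  (`b v = 0` if there is no pair.) -/
def PR2_stmt : Prop := ∀ (M N : ℕ) (F : ℤ × ℤ → ℤ × ℤ → ℂ) (G : ℕ → ℝ), 1 ≤ M → 1 ≤ N → (∀ n, 0 ≤ G n) →
  (∀ z ∈ FF M, ∀ w ∈ FF N, ‖F z w‖ ≤ G (nn z * nn w)) →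
  ∃ b : ℤ × ℤ → ℂ, (∀ v, ‖b v‖ ≤ (#(nn v).divisors : ℝ) ^ 3 * G (nn v)) ∧
    (∀ v, b v ≠ 0 → ∃ z ∈ FF M, ∃ w ∈ FF N, F z w ≠ 0 ∧ nn v = nn z * nn w) ∧
    ∀ Ψ : ℤ × ℤ → ℂ, MU Ψ → ∑ z ∈ FF M, ∑ w ∈ FF N, F z w * (Ψ z * Ψ w) = ∑ v ∈ FF (M * N), b v * Ψ v

open scoped Classical in
/-- **SMT** (medium; large smooth divisors, Rankin).  From `SK.TAM_stmt` (proved).  The sum is at most `∑_{a smooth, x^ε < a ≤ N} τ(a)^c ∑_{k ≤ N/a} τ(k)^c ≤ N (1 + log N)^(2^c) ∑_a τ(a)^c/a`, and with `θ = 1/(2C₀)`: `∑_{a smooth, a > x^ε} τ(a)^c/a ≤ x^(-εθ) ∑_{a smooth} τ(a)^c a^(θ-1) ≤ x^(-εθ) ∏_{p ≤ Z} (1 + C_c p^(θ-1))`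
(for `θ ≤ 1/2`: `∑_j (j+1)^c p^(j(θ-1)) ≤ 1 + C_c p^(θ-1)`), `∑_{p ≤ Z} p^(θ-1) ≤ ∑_{n ≤ Z} n^(θ-1) ≤ C Z^θ ≤ C √L`, and `exp (C √L) ≤ x^(εθ/2)`.  (Finite products: restrict to `a ≤ N`, or to the divisors of a power of `∏ p`.) -/
def SMT_stmt : Prop := ∀ (c C₀ A : ℕ) (ε : ℝ), 1 ≤ C₀ → 0 < ε → ∃ x₀ : ℕ, ∀ x : ℕ, x₀ ≤ x → ∀ Z N : ℕ, (Z : ℝ) ≤ Real.log x ^ C₀ → 1 ≤ N → N ≤ x ^ 4 →
  ∑ n ∈ Icc 1 N with (∃ a : ℕ, a ∣ n ∧ (x : ℝ) ^ ε < (a : ℝ) ∧ ∀ p : ℕ, p.Prime → p ∣ a → p ≤ Z), (#n.divisors : ℝ) ^ c ≤ N / Real.log x ^ A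

open scoped Classical in
/-- **SQT** (short, medium; square divisors).  From `SK.TAM_stmt`.  `n = p² k`: `τ(n)^c ≤ 3^c τ(k)^c`, `∑_{k ≤ N/p²} τ(k)^c ≤ (N/p²)(1 + log N)^(2^c)`, `∑_{p > Z} 1/p² ≤ 1/Z`. -/
def SQT_stmt : Prop := ∀ c : ℕ, ∃ (C : ℝ) (E : ℕ), 0 < C ∧ ∀ N Z : ℕ, 1 ≤ N → 1 ≤ Z →
  ∑ n ∈ Icc 1 N with (∃ p : ℕ, p.Prime ∧ Z < p ∧ p ^ 2 ∣ n), (#n.divisors : ℝ) ^ c ≤ C * N * (1 + Real.log N) ^ E / Z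

open scoped Classical in
/-- **TFE** (medium; moments over the elements).  From SIZ, CN2, `SK.TAM_stmt`.  At most `τ(n)²` elements `z ∈ FF n` have `nn z = n` (CN2; the norms of `FF` are odd and `≥ 1`, SIZ).  The second claim: `Q` = everything, and TAM (`tau` of `SK` is the number of divisors). -/
def TFE_stmt : Prop := (∀ (N c : ℕ) (Q : ℕ → Prop), ∑ z ∈ FF N with Q (nn z), (#(nn z).divisors : ℝ) ^ c ≤ ∑ n ∈ Icc 1 N with Q n, (#n.divisors : ℝ) ^ (c + 2)) ∧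
  ∀ c : ℕ, ∃ (C : ℝ) (E : ℕ), 0 < C ∧ ∀ N : ℕ, 1 ≤ N → ∑ z ∈ FF N, (#(nn z).divisors : ℝ) ^ c ≤ C * N * (1 + Real.log N) ^ E

open scoped Classical in
/-- **NSH** (short, medium; elements in a thin shell).  From SIZ.  Fix the INNER coordinate (`l` of `z = (n, l)`, `4|l| < n`; `a` of `z = (a, n)`, `|a| < 2n`), at most `C √N'` values:
`n` lies in an interval of length `≤ (N' - N)/√N` since `n²` (resp. `8n²`) lies in an interval of length `N' - N` and `n ≥ √(N/8)`. -/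
def NSH_stmt : Prop := ∃ C : ℝ, 0 < C ∧ ∀ N N' : ℕ, 1 ≤ N → N ≤ N' → N' ≤ 4 * N → (#{z ∈ FF N' | N < nn z} : ℝ) ≤ C * ((N' - N : ℝ) + √(N : ℝ))

end Pool.Agent.EU
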